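import Pool.Agent.D0H67.PM.Stm
import Pool.Agent.D0H67.SUB.Fin

/-! # One subspace: the classes of the jets with a given leading coefficient -/

set_option autoImplicit false
set_option linter.unusedSectionVars false
set_option linter.unusedVariables false

namespace Pool.Agent.D0H67.PM.Sing

open MvPolynomial Pool.Agent.W428.MOT Pool.Agent.TH192.MT Pool.Agent.TH192.DT
  Pool.Agent.D0H67.SUB

variable {K : Type} [Field K] [IsAlgClosed K] {σ : Type} [Fintype σ]

/-- the data -/
noncomputable def D (G : Submodule (AlgebraicClosure K) (Pt K σ)) (v : Pt K σ) (hv : v ∉ G)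
    (m : ℕ) (hm : 0 < m) : Dat K σ Unit where
  L := fun _ => G
  C := fun _ => conv G v
  e := fun _ => m
  cC := fun _ => by
    rw [Fin.conv_eq G hv]
    exact (Base.constr_sub _).inter (Base.constr_sub G).compl
  he := fun _ => hm
  dis := fun _ x hx => by
    rw [Fin.conv_eq G hv] at hx
    exact hx.2
  tr := fun _ x hx y hy => by
    obtain ⟨a, ha, h1⟩ := hx
    refine ⟨a, ha, ?_⟩
    have := G.add_mem h1 hy
    rwa [sub_add_eq_add_sub] at this

theorem chi_conv {R : Type} [CommRing R] (M : Meas K R)
    (G : Submodule (AlgebraicClosure K) (Pt K σ)) (v : Pt K σ) (hv : v ∉ G) :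
    M.χ σ (conv G v) = (M.L - 1) * M.L ^ Module.finrank (AlgebraicClosure K) G := by
  have h1 : ((Submodule.span (AlgebraicClosure K) {v} ⊔ G : Submodule _ _) : Set (Pt K σ)) =
      conv G v ∪ (G : Set (Pt K σ)) := by
    rw [Fin.conv_eq G hv]
    ext u
    simp only [Set.mem_union, Set.mem_inter_iff, Set.mem_compl_iff, SetLike.mem_coe]
    constructor
    · intro h
      by_cases h2 : u ∈ G
      · exact Or.inr h2
      · exact Or.inl ⟨h, h2⟩
    · rintro (h | h)
      · exact h.1
      · exact Submodule.mem_sup_right h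
  have h2 : Disjoint (conv G v) (G : Set (Pt K σ)) := by
    rw [Fin.conv_eq G hv, Set.disjoint_left]
    rintro u ⟨_, h2⟩ h3
    exact h2 h3
  have hc : Constr (conv G v) := by
    rw [Fin.conv_eq G hv]
    exact (Base.constr_sub _).inter (Base.constr_sub G).compl
  have h3 := M.add _ _ hc (Base.constr_sub G) h2
  rw [← h1, (Base.cls _).2 M, (Base.cls G).2 M] at h3
  have h4 : Module.finrank (AlgebraicClosure K)
      (Submodule.span (AlgebraicClosure K) {v} ⊔ G : Submodule _ _) =
      Module.finrank (AlgebraicClosure K) G + 1 := by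
    have h5 := Submodule.finrank_sup_add_finrank_inf_eq (Submodule.span (AlgebraicClosure K) {v}) G
    have h6 : Submodule.span (AlgebraicClosure K) {v} ⊓ G = ⊥ := by
      rw [Submodule.eq_bot_iff]
      rintro x ⟨hx, hx'⟩
      obtain ⟨a, rfl⟩ := Submodule.mem_span_singleton.1 hx
      by_cases ha : a = 0
      · rw [ha, zero_smul]
      · exfalso
        apply hv
        have := G.smul_mem a⁻¹ hx'
        rwa [inv_smul_smul₀ ha] at this
    have h7 : v ≠ 0 := fun h => hv (h ▸ G.zero_mem)
    rw [h6, finrank_bot, finrank_span_singleton h7] at h5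
    omega
  rw [h4, pow_succ] at h3
  linear_combination -h3

theorem main : S_PSING := by
  intro K _ _ σ _ R _ M w hw G p v hp hv m hm N hN
  set D := D G v hv m hm with hD
  have hL : ∀ s, Constr (D.L s : Set (Pt K σ)) := fun s => Base.constr_sub (D.L s)
  have hE := Eng.main D hL M w hw
  set d := Module.finrank (AlgebraicClosure K) G with hd
  set n := Fintype.card σ with hn
  set c : ℕ → R := fun N => PowerSeries.coeff N (D.zs M w {()}) with hc
  have hmul : D.mul {()} = m := by
    unfold Dat.mul
    rw [Finset.sum_singleton]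
    rfl
  have hpw : ({()} : Finset Unit).powerset = {∅, {()}} := by decide
  have hV1 : D.VV {()} {()} = (G : Set (Pt K σ)) := by
    ext u
    constructor
    · rintro ⟨h1, -⟩
      exact h1 () (Finset.mem_singleton_self ())
    · intro h
      refine ⟨fun _ _ => h, fun s hs => ?_⟩
      rw [Finset.sdiff_self] at hs
      exact absurd hs (Finset.notMem_empty s)
  have hV0 : D.VV {()} ∅ = conv G v := by
    ext u
    constructor
    · rintro ⟨-, h1⟩
      exact h1 () (by simp)
    · intro h
      exact ⟨fun s hs => absurd hs (Finset.notMem_empty s), fun _ _ => h⟩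
  have hrec : ∀ N, c N = if m ≤ N then w ^ n * ((M.L - 1) * M.L ^ d * (if N - m = 0 then 1 else 0) +
      M.L ^ d * c (N - m)) else 0 := by
    intro N
    change PowerSeries.coeff N (D.zs M w {()}) = _
    rw [hE.2 {()}, mul_assoc, PowerSeries.coeff_C_mul, PowerSeries.coeff_X_pow_mul', hmul]
    split_ifs with h h'
    · rw [hpw, Finset.sum_pair (by simp), hV0, hV1, hE.1, chi_conv M G v hv,
        (Base.cls G).2 M, map_add, mul_one, PowerSeries.coeff_C, if_pos h',
        PowerSeries.coeff_C_mul]
      ring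
    · rw [hpw, Finset.sum_pair (by simp), hV0, hV1, hE.1, chi_conv M G v hv,
        (Base.cls G).2 M, map_add, mul_one, PowerSeries.coeff_C, if_neg h',
        PowerSeries.coeff_C_mul]
      ring
    · rw [mul_zero]
  -- the coefficients
  have hcN : ∀ N, (N ≠ 0 ∧ m ∣ N → c N = (M.L - 1) * (w ^ n * M.L ^ d) ^ (N / m)) ∧
      (¬ (N ≠ 0 ∧ m ∣ N) → c N = 0) := by
    intro N
    induction N using Nat.strong_induction_on with
    | _ N ih =>
      by_cases h : m ≤ N
      · rw [hrec, if_pos h]
        have h3 : N ≠ 0 := by omega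
        have h2 : m ∣ N ↔ m ∣ N - m := by
          rw [Nat.dvd_sub_iff_left h (dvd_refl _)]
        have h5 : N / m = (N - m) / m + 1 := by
          rw [Nat.div_eq_sub_div hm h]
        by_cases h4 : N - m = 0
        · have h6 : c (N - m) = 0 := (ih (N - m) (by omega)).2 fun h7 => h7.1 h4
          have h7 : (N - m) / m = 0 := by rw [h4, Nat.zero_div]
          refine ⟨fun _ => ?_, fun h8 => ?_⟩
          · rw [if_pos h4, h6, h5, h7]
            ring
          · exfalso
            apply h8
            refine ⟨h3, ?_⟩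
            rw [h2, h4]
            exact dvd_zero _
        · rw [if_neg h4]
          refine ⟨fun h8 => ?_, fun h8 => ?_⟩
          · rw [(ih (N - m) (by omega)).1 ⟨h4, h2.1 h8.2⟩, h5]
            ring
          · rw [(ih (N - m) (by omega)).2 fun h9 => h8 ⟨h3, h2.2 h9.2⟩]
            ring
      · rw [hrec, if_neg h]
        refine ⟨fun h8 => ?_, fun _ => rfl⟩
        exact absurd (Nat.le_of_dvd (Nat.pos_of_ne_zero h8.1) h8.2) h
  -- the set
  have hset : {z : Pt K (σ × _root_.Fin (N + 1)) | jk z 0 = p ∧ ∃ a : ℕ, (∀ k < a, jk z k ∈ G) ∧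
      jk z a ∈ conv G v ∧ m * a = N} = D.JS {()} {p} N N := by
    ext z
    constructor
    · rintro ⟨h1, a, h2, h3, h4⟩
      refine ⟨h1, fun _ => a, fun s _ => ⟨h2, h3⟩, ?_⟩
      rw [Finset.sum_singleton]
      exact h4
    · rintro ⟨h1, a, h2, h3⟩
      rw [Finset.sum_singleton] at h3
      have h4 := h2 () (Finset.mem_singleton_self ())
      exact ⟨h1, a (), h4.1, h4.2, h3⟩
  have hchi : M.χ _ (D.JS {()} {p} N N) = M.L ^ (n * N) * c N := by
    rw [Trn.main D hL {()} {p} (Fin.constr_pt p) (by
      rintro x rfl s _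
      exact hp) N N M, Fin.chi_pt, one_mul]
    change _ = M.L ^ (n * N) * PowerSeries.coeff N (D.zs M w {()})
    unfold Dat.zs
    rw [PowerSeries.coeff_mk]
    have h2 : M.L ^ (n * N) * w ^ (n * N) = 1 := by
      rw [← mul_pow, hw, one_pow]
    linear_combination (- M.χ _ (D.JS {()} {0} N N)) * h2
  rw [hset, hchi]
  by_cases h : m ∣ N
  · refine ⟨Polynomial.X ^ (n * N + d * (N / m)), n * (N / m), ?_, ?_⟩
    · rw [Polynomial.eval_pow, Polynomial.eval_X, one_pow, if_pos h]
    · rw [(hcN N).1 ⟨hN.ne', h⟩, Polynomial.eval₂_X_pow, mul_pow, ← pow_mul, ← pow_mul, pow_add]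
      have h2 : M.L ^ (n * (N / m)) * w ^ (n * (N / m)) = 1 := by
        rw [← mul_pow, hw, one_pow]
      linear_combination ((M.L - 1) * M.L ^ (n * N) * M.L ^ (d * (N / m))) * h2
  · refine ⟨0, 0, ?_, ?_⟩
    · rw [Polynomial.eval_zero, if_neg h]
    · rw [(hcN N).2 fun h1 => h h1.2, Polynomial.eval₂_zero]
      ring

end Pool.Agent.D0H67.PM.Sing
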