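import Pool.Agent.D0H67.PM.Stm
import Pool.Agent.D0H67.SUB.Trn

/-! # The engine for weights which depend on the set -/

set_option autoImplicit false
set_option linter.unusedSectionVars false
set_option linter.unusedVariables false

namespace Pool.Agent.D0H67.PM.Eng

open MvPolynomial Pool.Agent.W428.MOT Pool.Agent.TH192.MT Pool.Agent.TH192.DT
  Pool.Agent.D0H67.SUB Pool.Agent.D0H67.SUB.Lev Pool.Agent.D0H67.SUB.Shift
  Pool.Agent.D0H67.SUB.Trn

variable {K : Type} [Field K] {σ S : Type} [Fintype σ] [DecidableEq S]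
  (L : S → Submodule (AlgebraicClosure K) (Pt K σ)) (f : Finset S → ℕ)

theorem mem_Ak {A : Finset S} {N : ℕ} {z : Pt K (σ × Fin (N + 1))} {k : ℕ} {s : S} :
    s ∈ Ak L A z k ↔ s ∈ A ∧ ∀ j ≤ k, jk z j ∈ L s := by
  classical
  simp only [Ak, Finset.mem_filter]

theorem Ak_anti {A : Finset S} {N : ℕ} (z : Pt K (σ × Fin (N + 1))) {k l : ℕ} (h : k ≤ l) :
    Ak L A z l ⊆ Ak L A z k := by
  intro s hs
  rw [mem_Ak] at hs ⊢
  exact ⟨hs.1, fun j hj => hs.2 j (hj.trans h)⟩

/-! ### constructibility -/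

theorem constr_eqAk (hL : ∀ s, Constr (L s : Set (Pt K σ))) (A B : Finset S) (N k : ℕ) :
    Constr {z : Pt K (σ × Fin (N + 1)) | Ak L A z k = B} := by
  classical
  by_cases hB : B ⊆ A
  · have h : {z : Pt K (σ × Fin (N + 1)) | Ak L A z k = B} =
        {z | (∀ s ∈ B, ∀ j ≤ k, jk z j ∈ L s) ∧ ∀ s ∈ A \ B, ¬ ∀ j ≤ k, jk z j ∈ L s} := by
      ext z
      simp only [Set.mem_ofPred_eq]
      constructor
      · intro h
        refine ⟨fun s hs => ?_, fun s hs h1 => ?_⟩
        · rw [← h, mem_Ak] at hs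
          exact hs.2
        · rw [Finset.mem_sdiff] at hs
          apply hs.2
          rw [← h, mem_Ak]
          exact ⟨hs.1, h1⟩
      · rintro ⟨h1, h2⟩
        ext s
        rw [mem_Ak]
        constructor
        · rintro ⟨h3, h4⟩
          by_contra h5
          exact h2 s (Finset.mem_sdiff.2 ⟨h3, h5⟩) h4
        · intro h3
          exact ⟨hB h3, h1 s h3⟩
    rw [h]
    have h1 : ∀ s, Constr {z : Pt K (σ × Fin (N + 1)) | ∀ j ≤ k, jk z j ∈ L s} := fun s =>
      Constr.allLe _ fun j _ => constr_jk j (hL s)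
    exact Constr.and (Constr.ballFinset B fun s _ => h1 s)
      (Constr.ballFinset (A \ B) fun s _ => Constr.not (h1 s))
  · have h : {z : Pt K (σ × Fin (N + 1)) | Ak L A z k = B} = ∅ := by
      rw [Set.eq_empty_iff_forall_notMem]
      intro z hz
      apply hB
      have h1 : Ak L A z k = B := hz
      rw [← h1]
      intro s hs
      exact ((mem_Ak L).1 hs).1
    rw [h]
    exact Constr.empty

/-- a condition on the sets `Ak` -/
theorem constr_cond (hL : ∀ s, Constr (L s : Set (Pt K σ))) (A : Finset S) (N : ℕ)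
    (p : (Fin (N + 1) → {B // B ∈ A.powerset}) → Prop) :
    Constr {z : Pt K (σ × Fin (N + 1)) | ∃ B, p B ∧ ∀ k : Fin (N + 1), Ak L A z k = (B k).1} := by
  refine Constr.ex fun B => Constr.and (Constr.const _) (Constr.all fun k => ?_)
  exact constr_eqAk L hL A (B k).1 N k

theorem constr_Jf (hL : ∀ s, Constr (L s : Set (Pt K σ))) (A : Finset S) {V : Set (Pt K σ)}
    (hV : Constr V) (m N : ℕ) : Constr (Jf L f A V m N) := by
  have h : Jf L f A V m N = {z | jk z 0 ∈ V ∧ z ∈ {z : Pt K (σ × Fin (N + 1)) |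
      ∃ B : Fin (N + 1) → {B // B ∈ A.powerset}, (f (B (Fin.last N)).1 = 0 ∧
        ∑ k : Fin (N + 1), f (B k).1 = m) ∧ ∀ k : Fin (N + 1), Ak L A z k = (B k).1}} := by
    ext z
    refine and_congr_right fun _ => ?_
    rw [← Fin.sum_univ_eq_sum_range (fun k => f (Ak L A z k)) (N + 1)]
    constructor
    · rintro ⟨h1, h2⟩
      exact ⟨fun k => ⟨Ak L A z k, Finset.mem_powerset.2 fun s hs => ((mem_Ak L).1 hs).1⟩,
        ⟨h1, h2⟩, fun k => rfl⟩
    · rintro ⟨B, ⟨h1, h2⟩, h3⟩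
      refine ⟨?_, ?_⟩
      · have := h3 (Fin.last N)
        rw [Fin.val_last] at this
        rw [this]
        exact h1
      · rw [← h2]
        exact Finset.sum_congr rfl fun k _ => by rw [h3 k]
  rw [h]
  exact Constr.and (constr_jk 0 hV) (constr_cond L hL A N _)

/-! ### levels -/

theorem Ak_trunc {A : Finset S} {N : ℕ} (z : Pt K (σ × Fin (N + 1 + 1))) {k : ℕ} (h : k ≤ N) :
    Ak L A (fun p : σ × Fin (N + 1) => z (p.1, p.2.castSucc)) k = Ak L A z k := by
  ext s
  rw [mem_Ak, mem_Ak]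
  refine and_congr_right fun _ => forall₂_congr fun j hj => ?_
  rw [jk_trunc z (hj.trans h)]

variable {f} (hf : ∀ A B, A ⊆ B → f A ≤ f B)
include hf

theorem mem_trunc {A : Finset S} {V : Set (Pt K σ)} {m N : ℕ} (h : m ≤ N)
    (z : Pt K (σ × Fin (N + 1 + 1))) : z ∈ Jf L f A V m (N + 1) ↔
      (fun p : σ × Fin (N + 1) => z (p.1, p.2.castSucc)) ∈ Jf L f A V m N := by
  unfold Jf
  rw [Set.mem_ofPred_eq, Set.mem_ofPred_eq, jk_trunc z (Nat.zero_le N), Ak_trunc L z le_rfl]
  have hs : ∑ k ∈ Finset.range (N + 1),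
      f (Ak L A (fun p : σ × Fin (N + 1) => z (p.1, p.2.castSucc)) k) =
      ∑ k ∈ Finset.range (N + 1), f (Ak L A z k) :=
    Finset.sum_congr rfl fun k hk => by
      rw [Ak_trunc L z (by rw [Finset.mem_range] at hk; omega)]
  rw [hs]
  refine and_congr_right fun _ => ?_
  have hle : ∀ k ≤ N, f (Ak L A z N) ≤ f (Ak L A z k) := fun k hk => hf _ _ (Ak_anti L z hk)
  constructor
  · rintro ⟨h1, h2⟩
    rw [Finset.sum_range_succ, h1, add_zero] at h2
    refine ⟨?_, h2⟩
    by_contra h3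
    have h4 : N + 1 ≤ ∑ k ∈ Finset.range (N + 1), f (Ak L A z k) := by
      calc N + 1 = ∑ k ∈ Finset.range (N + 1), 1 := by simp
        _ ≤ _ := Finset.sum_le_sum fun k hk => by
          have := hle k (by rw [Finset.mem_range] at hk; omega)
          omega
    omega
  · rintro ⟨h1, h2⟩
    have h3 : f (Ak L A z (N + 1)) = 0 := by
      have := hf _ _ (Ak_anti L (A := A) z (Nat.le_succ N))
      have h4 : Ak L A z N.succ = Ak L A z (N + 1) := rfl
      rw [h4] at this
      omega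
    refine ⟨h3, ?_⟩
    rw [Finset.sum_range_succ, h3, add_zero, h2]

theorem lev (hL : ∀ s, Constr (L s : Set (Pt K σ))) (A : Finset S) {V : Set (Pt K σ)}
    (hV : Constr V) {m N : ℕ} (h : m ≤ N) {R : Type} [CommRing R] (M : Meas K R) :
    M.χ _ (Jf L f A V m (N + 1)) = M.χ _ (Jf L f A V m N) * M.L ^ Fintype.card σ :=
  chi_split M (eqv σ N) _ _ (constr_Jf L f hL A hV m N) (mem_trunc L hf h)

theorem level {R : Type} [CommRing R] (M : Meas K R) (v : R) (hv : M.L * v = 1)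
    (hL : ∀ s, Constr (L s : Set (Pt K σ))) (A : Finset S) {V : Set (Pt K σ)}
    (hV : Constr V) {m N : ℕ} (h : m ≤ N) :
    M.χ _ (Jf L f A V m N) * v ^ (Fintype.card σ * N) =
      M.χ _ (Jf L f A V m m) * v ^ (Fintype.card σ * m) := by
  induction N, h using Nat.le_induction with
  | base => rfl
  | succ N h ih =>
    rw [← ih, lev L hf hL A hV h M, Nat.mul_add, Nat.mul_one, pow_add]
    have h1 : M.L ^ Fintype.card σ * v ^ Fintype.card σ = 1 := by
      rw [← mul_pow, hv, one_pow]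
    linear_combination (M.χ _ (Jf L f A V m N) * v ^ (Fintype.card σ * N)) * h1

omit hf

/-! ### division by `t` -/

theorem Ak_zero_of {A : Finset S} {N : ℕ} {z : Pt K (σ × Fin (N + 1))} (h : jk z 0 = 0) :
    Ak L A z 0 = A := by
  ext s
  rw [mem_Ak]
  refine ⟨fun h => h.1, fun h1 => ⟨h1, fun j hj => ?_⟩⟩
  rw [Nat.le_zero.1 hj, h]
  exact (L s).zero_mem

theorem Ak_mt {A : Finset S} {N : ℕ} (w : Pt K (σ × Fin (N + 1))) (k : ℕ) :
    Ak L A (mt w) (k + 1) = Ak L A w k := by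
  ext s
  rw [mem_Ak, mem_Ak]
  refine and_congr_right fun _ => ⟨fun h j hj => ?_, fun h j hj => ?_⟩
  · rw [← jk_mt]
    exact h (j + 1) (by omega)
  · rcases Nat.eq_zero_or_pos j with rfl | hj'
    · rw [jk_mt_zero]
      exact (L s).zero_mem
    · obtain ⟨j, rfl⟩ := Nat.exists_eq_add_of_le' hj'
      rw [jk_mt]
      exact h j (by omega)

theorem mem_mt {A : Finset S} {m N : ℕ} (w : Pt K (σ × Fin (N + 1))) :
    mt w ∈ Jf L f A {0} m (N + 1) ↔ f A ≤ m ∧ w ∈ Jf L f A Set.univ (m - f A) N := by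
  unfold Jf
  rw [Set.mem_ofPred_eq, Set.mem_ofPred_eq, Ak_mt, Finset.sum_range_succ', Ak_zero_of L
    (jk_mt_zero w)]
  have h1 : ∑ k ∈ Finset.range (N + 1), f (Ak L A (mt w) (k + 1)) =
      ∑ k ∈ Finset.range (N + 1), f (Ak L A w k) :=
    Finset.sum_congr rfl fun k _ => by rw [Ak_mt]
  rw [h1]
  constructor
  · rintro ⟨-, h2, h3⟩
    exact ⟨by omega, trivial, h2, by omega⟩
  · rintro ⟨h2, -, h3, h4⟩
    exact ⟨jk_mt_zero w, h3, by omega⟩

theorem shift (hL : ∀ s, Constr (L s : Set (Pt K σ))) (A : Finset S) (m N : ℕ)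
    {R : Type} [CommRing R] (M : Meas K R) :
    M.χ _ (Jf L f A {0} m (N + 1)) =
      if f A ≤ m then M.χ _ (Jf L f A Set.univ (m - f A) N) else 0 := by
  split_ifs with h
  · refine M.iso _ _ (constr_Jf L f hL A constr_z _ _) (constr_Jf L f hL A Constr.univ _ _) sh mt
      (regularOn_poly (fun p => IsPF.coord _) _) (regularOn_poly pf_mt _) ?_ ?_ ?_ ?_
    · intro z hz
      have h1 : mt (sh z) = z := mt_sh z hz.1
      rw [← h1, mem_mt] at hz
      exact hz.2
    · intro w hw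
      rw [mem_mt]
      exact ⟨h, hw⟩
    · intro z hz
      exact mt_sh z hz.1
    · intro w hw
      exact sh_mt w
  · have h1 : Jf L f A {0} m (N + 1) = ∅ := by
      rw [Set.eq_empty_iff_forall_notMem]
      intro z hz
      have h1 : mt (sh z) = z := mt_sh z hz.1
      rw [← h1, mem_mt] at hz
      exact h hz.1
    rw [h1, Pool.Agent.W375.MT.chi_empty]

/-! ### stratification -/

theorem constr_VC (hL : ∀ s, Constr (L s : Set (Pt K σ))) (A B : Finset S) :
    Constr (VC L A B) :=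
  Constr.and (Constr.ballFinset B fun s _ => hL s)
    (Constr.ballFinset (A \ B) fun s _ => Constr.not (hL s))

theorem Ak_VC {A B : Finset S} (hB : B ⊆ A) {N : ℕ} {z : Pt K (σ × Fin (N + 1))}
    (h : jk z 0 ∈ VC L A B) (k : ℕ) : Ak L A z k = Ak L B z k := by
  ext s
  rw [mem_Ak, mem_Ak]
  constructor
  · rintro ⟨h1, h2⟩
    refine ⟨?_, h2⟩
    by_contra h3
    exact h.2 s (Finset.mem_sdiff.2 ⟨h1, h3⟩) (h2 0 (Nat.zero_le k))
  · rintro ⟨h1, h2⟩
    exact ⟨hB h1, h2⟩

theorem strat_eq (A : Finset S) (m N : ℕ) :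
    Jf L f A Set.univ m N = ⋃ B ∈ A.powerset, Jf L f B (VC L A B) m N := by
  classical
  ext z
  simp only [Set.mem_iUnion, exists_prop, Finset.mem_powerset]
  constructor
  · rintro ⟨-, h1, h2⟩
    have hB : A.filter (fun s => jk z 0 ∈ L s) ⊆ A := Finset.filter_subset _ _
    have hV : jk z 0 ∈ VC L A (A.filter fun s => jk z 0 ∈ L s) := by
      refine ⟨fun s hs => (Finset.mem_filter.1 hs).2, fun s hs h3 => ?_⟩
      rw [Finset.mem_sdiff, Finset.mem_filter] at hs
      exact hs.2 ⟨hs.1, h3⟩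
    refine ⟨_, hB, hV, ?_, ?_⟩
    · rw [← Ak_VC L hB hV]
      exact h1
    · rw [← h2]
      exact Finset.sum_congr rfl fun k _ => by rw [Ak_VC L hB hV]
  · rintro ⟨B, hB, hV, h1, h2⟩
    refine ⟨trivial, ?_, ?_⟩
    · rw [Ak_VC L hB hV]
      exact h1
    · rw [← h2]
      exact Finset.sum_congr rfl fun k _ => by rw [Ak_VC L hB hV]

theorem VC_disj {A B B' : Finset S} (hB : B ⊆ A) (hB' : B' ⊆ A) {u : Pt K σ}
    (h : u ∈ VC L A B) (h' : u ∈ VC L A B') : B = B' := by
  have key : ∀ {B B' : Finset S}, B ⊆ A → u ∈ VC L A B → u ∈ VC L A B' → B ⊆ B' := by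
    intro B B' hB h h' s hs
    by_contra h1
    exact h'.2 s (Finset.mem_sdiff.2 ⟨hB hs, h1⟩) (h.1 s hs)
  exact Finset.Subset.antisymm (key hB h h') (key hB' h' h)

theorem strat (hL : ∀ s, Constr (L s : Set (Pt K σ))) (A : Finset S) (m N : ℕ)
    {R : Type} [CommRing R] (M : Meas K R) :
    M.χ _ (Jf L f A Set.univ m N) = ∑ B ∈ A.powerset, M.χ _ (Jf L f B (VC L A B) m N) := by
  rw [strat_eq L A m N, Pool.Agent.W375.MT.chi_biUnion M _ _
    (fun B _ => constr_Jf L f hL B (constr_VC L hL A B) m N)]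
  intro B hB B' hB' hne
  rw [Set.disjoint_left]
  rintro z ⟨h1, -⟩ ⟨h2, -⟩
  exact hne (VC_disj L (Finset.mem_powerset.1 hB) (Finset.mem_powerset.1 hB') h1 h2)

/-! ### translation -/

theorem Ak_gl {A : Finset S} {N : ℕ} {x : Pt K σ} (hx : ∀ s ∈ A, x ∈ L s)
    (w : Pt K (σ × Fin N)) (k : ℕ) : Ak L A (gl x w) k = Ak L A (gl 0 w) k := by
  ext s
  rw [mem_Ak, mem_Ak]
  refine and_congr_right fun hs => forall₂_congr fun j _ => ?_
  rcases Nat.eq_zero_or_pos j with rfl | hj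
  · rw [jk_gl_zero, jk_gl_zero]
    exact ⟨fun _ => (L s).zero_mem, fun _ => hx s hs⟩
  · rw [jk_gl_pos x 0 w hj]

theorem gl_mem {A : Finset S} {V : Set (Pt K σ)} (hV : ∀ x ∈ V, ∀ s ∈ A, x ∈ L s) {m N : ℕ}
    {x : Pt K σ} (hx : x ∈ V) (w : Pt K (σ × Fin N)) :
    gl x w ∈ Jf L f A V m N ↔ gl 0 w ∈ Jf L f A {0} m N := by
  unfold Jf
  rw [Set.mem_ofPred_eq, Set.mem_ofPred_eq, jk_gl_zero, jk_gl_zero, Ak_gl L (hV x hx)]
  have h1 : ∑ k ∈ Finset.range (N + 1), f (Ak L A (gl x w) k) =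
      ∑ k ∈ Finset.range (N + 1), f (Ak L A (gl 0 w) k) :=
    Finset.sum_congr rfl fun k _ => by rw [Ak_gl L (hV x hx)]
  rw [h1]
  exact ⟨fun h => ⟨rfl, h.2⟩, fun h => ⟨hx, h.2⟩⟩

/-- the conditions for the other coefficients -/
def Y (f : Finset S → ℕ) (A : Finset S) (m N : ℕ) : Set (Pt K (σ × Fin N)) :=
  {w | gl 0 w ∈ Jf L f A {0} m N}

theorem constr_Y (hL : ∀ s, Constr (L s : Set (Pt K σ))) (A : Finset S) (m N : ℕ) :
    Constr (Y L f A m N) :=
  (constr_Jf L f hL A constr_z m N).preimage (fun w : Pt K (σ × Fin N) => gl 0 w)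
    (pf_gl (fun i => IsPF.zero) fun p => IsPF.coord p)

theorem trnY (hL : ∀ s, Constr (L s : Set (Pt K σ))) (A : Finset S) {V : Set (Pt K σ)}
    (hVc : Constr V) (hV : ∀ x ∈ V, ∀ s ∈ A, x ∈ L s) (m N : ℕ) {R : Type} [CommRing R]
    (M : Meas K R) : M.χ _ (Jf L f A V m N) = M.χ σ V * M.χ _ (Y L f A m N) := by
  rw [← M.prod V _ hVc (constr_Y L hL A m N)]
  refine M.iso _ _ (constr_Jf L f hL A hVc m N) ?_
    (fun z => Sum.elim (fun i => z (i, 0)) fun p => z (p.1, p.2.succ))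
    (fun z => gl (fun i => z (Sum.inl i)) fun p => z (Sum.inr p)) ?_ ?_ ?_ ?_ ?_ ?_
  · exact Constr.and (hVc.preimage _ fun i => IsPF.coord _)
      ((constr_Y L hL A m N).preimage _ fun i => IsPF.coord _)
  · refine regularOn_poly (fun p => ?_) _
    rcases p with i | p
    · exact IsPF.coord _
    · exact IsPF.coord _
  · exact regularOn_poly (pf_gl (fun i => IsPF.coord _) fun p => IsPF.coord _) _
  · intro z hz
    have h1 : (fun i => z (i, 0)) ∈ V := by
      have := hz.1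
      rwa [jk_zero] at this
    refine ⟨h1, ?_⟩
    change gl 0 (fun p => z (p.1, p.2.succ)) ∈ Jf L f A {0} m N
    rw [← gl_mem L hV h1, gl_eta]
    exact hz
  · rintro z ⟨h1, h2⟩
    change gl (fun i => z (Sum.inl i)) (fun p => z (Sum.inr p)) ∈ Jf L f A V m N
    rw [gl_mem L hV h1]
    exact h2
  · intro z _
    exact gl_eta z
  · intro z _
    funext p
    rcases p with i | p
    · rfl
    · rfl

theorem trn (hL : ∀ s, Constr (L s : Set (Pt K σ))) (A : Finset S) {V : Set (Pt K σ)}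
    (hVc : Constr V) (hV : ∀ x ∈ V, ∀ s ∈ A, x ∈ L s) (m N : ℕ) {R : Type} [CommRing R]
    (M : Meas K R) : M.χ _ (Jf L f A V m N) = M.χ σ V * M.χ _ (Jf L f A {0} m N) := by
  have h0 : ∀ x ∈ ({0} : Set (Pt K σ)), ∀ s ∈ A, x ∈ L s := by
    rintro x rfl s _
    exact (L s).zero_mem
  rw [trnY L hL A hVc hV, trnY L hL A constr_z h0, chi_zero, one_mul]

include hf in
theorem zero_case {A : Finset S} (hA : f A = 0) (V : Set (Pt K σ)) (m N : ℕ) :
    Jf L f A V m N = {z | jk z 0 ∈ V ∧ m = 0} := by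
  have h1 : ∀ (z : Pt K (σ × Fin (N + 1))) (k : ℕ), f (Ak L A z k) = 0 := by
    intro z k
    have := hf (Ak L A z k) A fun s hs => ((mem_Ak L).1 hs).1
    omega
  ext z
  unfold Jf
  rw [Set.mem_ofPred_eq, Set.mem_ofPred_eq]
  simp only [h1, Finset.sum_const_zero, true_and]
  refine and_congr_right fun _ => eq_comm

theorem main : S_PENG := by
  intro K _ σ S _ _ L f hL hf0 hf R _ M v hv
  refine ⟨fun A hA => ?_, fun A => ?_⟩
  · ext N
    unfold zf
    rw [PowerSeries.coeff_mk, PowerSeries.coeff_one, zero_case L hf hA]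
    split_ifs with h
    · subst h
      have h1 : {z : Pt K (σ × Fin (0 + 1)) | jk z 0 ∈ ({0} : Set (Pt K σ)) ∧ (0 : ℕ) = 0} =
          {0} := by
        ext z
        constructor
        · rintro ⟨h1, -⟩
          have h2 : jk z 0 = 0 := h1
          rw [jk_zero] at h2
          refine Set.mem_singleton_iff.2 (funext fun p => ?_)
          obtain ⟨i, k⟩ := p
          have hk : k = 0 := Fin.ext (by have := k.2; omega)
          rw [hk]
          exact congrFun h2 i
        · intro h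
          rw [Set.mem_singleton_iff] at h
          subst h
          refine ⟨?_, rfl⟩
          rw [jk_zero]
          rfl
      rw [h1, chi_zero, Nat.mul_zero, pow_zero, mul_one]
    · have h1 : {z : Pt K (σ × Fin (N + 1)) | jk z 0 ∈ ({0} : Set (Pt K σ)) ∧ N = 0} = ∅ := by
        rw [Set.eq_empty_iff_forall_notMem]
        rintro z ⟨-, h2⟩
        exact h h2
      rw [h1, Pool.Agent.W375.MT.chi_empty, zero_mul]
  · ext m
    rw [mul_assoc, PowerSeries.coeff_C_mul, PowerSeries.coeff_X_pow_mul']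
    conv_lhs =>
      unfold zf
      rw [PowerSeries.coeff_mk]
    rw [← level L hf M v hv hL A constr_z (Nat.le_succ m)]
    change M.χ _ (Jf L f A {0} m (m + 1)) * _ = _
    rw [shift L hL A m m M]
    split_ifs with h
    · rw [strat L hL A _ _ M, map_sum, Finset.mul_sum, Finset.sum_mul]
      refine Finset.sum_congr rfl fun B _ => ?_
      rw [trn L hL B (constr_VC L hL A B) (fun x hx s hs => hx.1 s hs)]
      rw [PowerSeries.coeff_C_mul]
      unfold zf
      rw [PowerSeries.coeff_mk, ← level L hf M v hv hL B constr_z (Nat.sub_le m (f A)),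
        Nat.mul_succ, pow_add]
      ring
    · rw [zero_mul, mul_zero]

end Pool.Agent.D0H67.PM.Eng
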