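import Pool.Agent.D0H67.PM.Eng
import Pool.Agent.D0H9.SUB.Ord

/-! # The order of a sum of products of ideals of linear subspaces on jets -/

set_option autoImplicit false
set_option linter.unusedSectionVars false
set_option linter.unusedVariables false

namespace Pool.Agent.D0H67.PM.Ord

open MvPolynomial Pool.Agent.W428.MOT Pool.Agent.TH192.MT Pool.Agent.TH192.DT
  Pool.Agent.D0H67.SUB Pool.Agent.D0H9.SUB

variable {K : Type} [Field K] {σ S : Type} [Fintype σ] [Fintype S] [DecidableEq S]
  {κ : S → Type} (c : (s : S) → κ s → σ → K)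

open Classical in
/-- the order of the jet along the subspace of index `s` -/
noncomputable def od {N : ℕ} (z : Pt K (σ × Fin (N + 1))) (s : S) : ℕ :=
  if h : ∃ k, jk z k ∉ zerosF (c s) then Nat.find h else N + 1

variable {c}

theorem od_lt {N : ℕ} {z : Pt K (σ × Fin (N + 1))} {s : S} {k : ℕ} (h : k < od c z s) :
    jk z k ∈ zerosF (c s) := by
  classical
  unfold od at h
  split_ifs at h with h1
  · have := Nat.find_min h1 h
    push Not at this
    exact this
  · push Not at h1
    exact h1 k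

theorem od_le {N : ℕ} (z : Pt K (σ × Fin (N + 1))) (s : S) : od c z s ≤ N + 1 := by
  classical
  unfold od
  split_ifs with h1
  · have hk := Nat.find_spec h1
    by_contra h3
    rw [Lev.jk_ge z (by omega)] at hk
    exact hk (zerosF (c s)).zero_mem
  · exact le_rfl

theorem od_spec {N : ℕ} {z : Pt K (σ × Fin (N + 1))} {s : S} (h : od c z s ≤ N) :
    jk z (od c z s) ∉ zerosF (c s) := by
  classical
  unfold od at h ⊢
  split_ifs at h ⊢ with h1
  · exact Nat.find_spec h1
  · omega

theorem le_od {N : ℕ} {z : Pt K (σ × Fin (N + 1))} {s : S} {k : ℕ} (hk : k ≤ N + 1)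
    (h : ∀ j < k, jk z j ∈ zerosF (c s)) : k ≤ od c z s := by
  classical
  unfold od
  split_ifs with h1
  · rw [Nat.le_find_iff]
    intro j hj h2
    exact h2 (h j hj)
  · exact hk

theorem od_eq {N : ℕ} {z : Pt K (σ × Fin (N + 1))} {s : S} {k : ℕ} (hk : k ≤ N)
    (h : ∀ j < k, jk z j ∈ zerosF (c s)) (h' : jk z k ∉ zerosF (c s)) : od c z s = k := by
  refine le_antisymm ?_ (le_od (by omega) h)
  by_contra h1
  push Not at h1
  exact h' (od_lt h1)

theorem mem_Ak_od {N : ℕ} {z : Pt K (σ × Fin (N + 1))} {s : S} {k : ℕ} (hk : k ≤ N) :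
    s ∈ Ak (fun s => zerosF (c s)) Finset.univ z k ↔ k < od c z s := by
  rw [Eng.mem_Ak]
  constructor
  · rintro ⟨-, h⟩
    exact le_od (by omega) fun j hj => h j (by omega)
  · intro h
    exact ⟨Finset.mem_univ s, fun j hj => od_lt (by omega)⟩

/-- the order in terms of the sets -/
theorem sum_od {N : ℕ} (z : Pt K (σ × Fin (N + 1))) (e : S → ℕ) :
    ∑ k ∈ Finset.range (N + 1), ∑ s ∈ Ak (fun s => zerosF (c s)) Finset.univ z k, e s =
      ∑ s, e s * od c z s := by
  classical
  have h1 : ∀ k ∈ Finset.range (N + 1),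
      ∑ s ∈ Ak (fun s => zerosF (c s)) Finset.univ z k, e s =
      ∑ s, if k < od c z s then e s else 0 := by
    intro k hk
    rw [Finset.mem_range] at hk
    rw [← Finset.sum_filter]
    refine Finset.sum_congr ?_ fun _ _ => rfl
    ext s
    rw [mem_Ak_od (by omega), Finset.mem_filter]
    exact ⟨fun h => ⟨Finset.mem_univ s, h⟩, fun h => h.2⟩
  rw [Finset.sum_congr rfl h1, Finset.sum_comm]
  refine Finset.sum_congr rfl fun s _ => ?_
  rw [← Finset.sum_filter, Finset.sum_const, smul_eq_mul, mul_comm]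
  congr 1
  have h2 : (Finset.range (N + 1)).filter (fun k => k < od c z s) = Finset.range (od c z s) := by
    ext k
    rw [Finset.mem_filter, Finset.mem_range, Finset.mem_range]
    have := od_le (c := c) z s
    constructor
    · exact fun h => h.2
    · intro h
      exact ⟨by omega, h⟩
  rw [h2, Finset.card_range]

theorem exists_g' (e : S → ℕ) (x : S → Pt K σ) (h : ∀ s, 0 < e s → x s ∉ zerosF (c s)) :
    ∃ g : (s : S) → Fin (e s) → κ s,
      ∏ s, ∏ k, ∑ i, algebraMap K (AlgebraicClosure K) (c s (g s k) i) * x s i ≠ 0 := by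
  have h1 : ∀ s (k : Fin (e s)), ∃ j, ∑ i, algebraMap K (AlgebraicClosure K) (c s j i) * x s i ≠ 0 := by
    intro s k
    have := h s (by have := k.2; omega)
    rw [mem_zerosF] at this
    push Not at this
    exact this
  choose j hj using h1
  refine ⟨j, ?_⟩
  rw [Finset.prod_ne_zero_iff]
  intro s _
  rw [Finset.prod_ne_zero_iff]
  intro k _
  exact hj s k

/-- all coefficients up to the order of one member -/
theorem coeffs {N : ℕ} (z : Pt K (σ × Fin (N + 1))) (e : S → ℕ)
    (g : (s : S) → Fin (e s) → κ s) :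
    (∀ k < ∑ s, e s * od c z s, PowerSeries.coeff k (aeval (ar z) (gens c e g)) = 0) ∧
      PowerSeries.coeff (∑ s, e s * od c z s) (aeval (ar z) (gens c e g)) =
        ∏ s, ∏ k, ∑ i, algebraMap K (AlgebraicClosure K) (c s (g s k) i) * jk z (od c z s) i :=
  lead_gens z c e (od c z) (fun s k hk => od_lt hk) g

theorem top_zero {N : ℕ} {z : Pt K (σ × Fin (N + 1))} {e : S → ℕ}
    (h : ∑ s, e s * od c z s ≤ N) :
    ∑ s ∈ Ak (fun s => zerosF (c s)) Finset.univ z N, e s = 0 := by
  by_contra h1
  have h2 : N + 1 ≤ ∑ k ∈ Finset.range (N + 1),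
      ∑ s ∈ Ak (fun s => zerosF (c s)) Finset.univ z k, e s := by
    calc N + 1 = ∑ k ∈ Finset.range (N + 1), 1 := by simp
      _ ≤ _ := Finset.sum_le_sum fun k hk => by
        rw [Finset.mem_range] at hk
        have h3 : ∑ s ∈ Ak (fun s => zerosF (c s)) Finset.univ z N, e s ≤
            ∑ s ∈ Ak (fun s => zerosF (c s)) Finset.univ z k, e s :=
          Finset.sum_le_sum_of_subset (Eng.Ak_anti _ z (by omega))
        omega
  rw [sum_od] at h2
  omega

theorem exists_top {N : ℕ} {z : Pt K (σ × Fin (N + 1))} {e : S → ℕ}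
    (h : ∑ s ∈ Ak (fun s => zerosF (c s)) Finset.univ z N, e s = 0) :
    ∃ g : (s : S) → Fin (e s) → κ s,
      PowerSeries.coeff (∑ s, e s * od c z s) (aeval (ar z) (gens c e g)) ≠ 0 := by
  obtain ⟨g, hg⟩ := exists_g' (c := c) e (fun s => jk z (od c z s)) fun s hs => by
    refine od_spec ?_
    by_contra h1
    have h2 : s ∈ Ak (fun s => zerosF (c s)) Finset.univ z N := by
      rw [mem_Ak_od le_rfl]
      omega
    have h3 := (Finset.sum_eq_zero_iff.1 h) s h2
    omega
  exact ⟨g, by rw [(coeffs z e g).2]; exact hg⟩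

theorem fP_le {P : Finset (S → ℕ)} (hP : P.Nonempty) {e : S → ℕ} (he : e ∈ P) (A : Finset S) :
    fP P hP A ≤ ∑ s ∈ A, e s := Finset.inf'_le _ he

theorem ord1 : S_PORD1 := by
  intro K _ σ S _ _ _ κ c P hP hG N
  ext z
  have hz0 : (fun i => z (i, 0)) ∈ ({0} : Set (Pt K σ)) ↔ jk z 0 ∈ ({0} : Set (Pt K σ)) := by
    rw [Lev.jk_zero]
  unfold JetF Jf
  rw [Set.mem_ofPred_eq, Set.mem_ofPred_eq, hz0]
  refine and_congr_right fun _ => ?_
  obtain ⟨e', he', hmin⟩ := hG (fun k => Ak (fun s => zerosF (c s)) Finset.univ z k)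
    fun k l h => Eng.Ak_anti _ z h
  have hT : ∑ s, e' s * od c z s = ∑ k ∈ Finset.range (N + 1),
      fP P hP (Ak (fun s => zerosF (c s)) Finset.univ z k) := by
    rw [← sum_od]
    exact Finset.sum_congr rfl fun k _ => hmin k
  have hle : ∀ e ∈ P, ∑ s, e' s * od c z s ≤ ∑ s, e s * od c z s := by
    intro e he
    rw [hT, ← sum_od]
    exact Finset.sum_le_sum fun k _ => fP_le hP he _
  constructor
  · rintro ⟨h1, ⟨⟨e, he⟩, g⟩, h2⟩
    have h3 : ∑ s, e s * od c z s ≤ N := by
      by_contra h4
      push Not at h4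
      exact h2 ((coeffs z e g).1 N h4)
    have h4 := hle e he
    have h5 := top_zero (c := c) (z := z) (e := e') (by omega)
    refine ⟨by rw [← hmin N]; exact h5, ?_⟩
    rw [← hT]
    obtain ⟨g', hg'⟩ := exists_top h5
    by_contra h6
    exact hg' (h1 ⟨⟨e', he'⟩, g'⟩ _ (by omega))
  · rintro ⟨h1, h2⟩
    rw [← hT] at h2
    rw [← hmin N] at h1
    refine ⟨fun g k hk => ?_, ?_⟩
    · exact (coeffs z g.1.1 g.2).1 k (by have := hle g.1.1 g.1.2; omega)
    · obtain ⟨g', hg'⟩ := exists_top h1
      rw [h2] at hg'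
      exact ⟨⟨⟨e', he'⟩, g'⟩, hg'⟩

theorem exists_min {P : Finset (S → ℕ)} (hP : P.Nonempty) (A : Finset S) :
    ∃ e ∈ P, ∑ s ∈ A, e s = fP P hP A := by
  obtain ⟨e, he, h⟩ := Finset.exists_mem_eq_inf' hP fun e => ∑ s ∈ A, e s
  exact ⟨e, he, h.symm⟩

theorem ord2 : S_PORD2 := by
  intro K _ σ S _ _ _ κ c P hP A hX hf p v hv hp hp' N
  have hsel : ∀ s, (if s ∈ A then v else p) ∉ zerosF (c s) := by
    intro s
    by_cases h : s ∈ A
    · rw [if_pos h]; exact hv s h
    · rw [if_neg h]; exact hp' s h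
  have happ : ∀ s (i : σ), (if s ∈ A then v i else p i) = (if s ∈ A then v else p) i := by
    intro s i
    split_ifs <;> rfl
  have hA0 : A.Nonempty := by
    by_contra h
    rw [Finset.not_nonempty_iff_eq_empty] at h
    obtain ⟨e, -, he⟩ := exists_min hP A
    rw [h, Finset.sum_empty] at he
    rw [h] at hf
    omega
  have hmemG : ∀ x : Pt K σ, x ∈ (A.inf fun s => zerosF (c s) : Submodule _ _) ↔
      ∀ s ∈ A, x ∈ zerosF (c s) := fun x => Submodule.mem_finsetInf
  ext z
  have hz0 : (∀ i, z (i, 0) = p i) ↔ jk z 0 = p := by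
    rw [funext_iff, Lev.jk_zero]
  unfold JetE
  rw [Set.mem_ofPred_eq, Set.mem_ofPred_eq, hz0]
  refine and_congr_right fun h0 => ?_
  simp only [happ]
  constructor
  · rintro ⟨h1, c₀, hc₀, h2⟩
    -- the orders
    have hodn : ∀ s, s ∉ A → od c z s = 0 := by
      intro s hs
      refine od_eq (Nat.zero_le N) (fun j hj => absurd hj (Nat.not_lt_zero j)) ?_
      rw [h0]
      exact hp' s hs
    choose j0 hj0 using fun s => (show ∃ j, ∑ i, algebraMap K (AlgebraicClosure K) (c s j i) *
        (if s ∈ A then v else p) i ≠ 0 by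
      have := hsel s
      rw [mem_zerosF] at this
      push Not at this
      exact this)
    have hY : ∀ e : S → ℕ, ∏ s, ∏ k : Fin (e s), ∑ i, algebraMap K (AlgebraicClosure K)
        (c s (j0 s) i) * (if s ∈ A then v else p) i ≠ 0 := fun e =>
      Finset.prod_ne_zero_iff.2 fun s _ => Finset.prod_ne_zero_iff.2 fun k _ => hj0 s
    have hTN : ∀ e ∈ P, ∑ s ∈ A, e s = fP P hP A → ∑ s, e s * od c z s = N ∧
        ∑ s ∈ Ak (fun s => zerosF (c s)) Finset.univ z N, e s = 0 := by
      intro e he hef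
      have h3 := h2 ⟨⟨e, he⟩, fun s _ => j0 s⟩
      rw [if_pos hef] at h3
      have h4 : PowerSeries.coeff N (aeval (ar z) (gens c e fun s _ => j0 s)) ≠ 0 := by
        intro h5
        exact mul_ne_zero hc₀ (hY e) (h3.symm.trans h5)
      have h5 : ∑ s, e s * od c z s ≤ N := by
        by_contra h6
        push Not at h6
        exact h4 ((coeffs z e _).1 N h6)
      have h6 := top_zero h5
      refine ⟨?_, h6⟩
      obtain ⟨g', hg'⟩ := exists_top h6
      by_contra h7
      exact hg' (h1 ⟨⟨e, he⟩, g'⟩ _ (by omega))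
    -- exchange
    have hsum : ∀ {s t : S} {e e' : S → ℕ} (w : S → ℕ) (B : Finset S), s ∈ B → t ∈ B →
        s ≠ t → e' s + 1 = e s → e' t = e t + 1 → (∀ r, r ≠ s → r ≠ t → e' r = e r) →
        ∑ r ∈ B, e r * w r + w t = ∑ r ∈ B, e' r * w r + w s := by
      intro s t e e' w B hs ht hst hs' ht' hr
      have h3 : ∑ r ∈ B, (if r = t then w r else 0) = w t := by
        rw [Finset.sum_ite_eq' B t, if_pos ht]
      have h4 : ∑ r ∈ B, (if r = s then w r else 0) = w s := by
        rw [Finset.sum_ite_eq' B s, if_pos hs]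
      rw [← h3, ← h4, ← Finset.sum_add_distrib, ← Finset.sum_add_distrib]
      refine Finset.sum_congr rfl fun r _ => ?_
      by_cases h5 : r = s
      · subst h5
        rw [if_neg hst, if_pos rfl, ← hs']
        ring
      · by_cases h6 : r = t
        · subst h6
          rw [if_pos rfl, if_neg h5, ht']
          ring
        · rw [if_neg h6, if_neg h5, hr r h5 h6]
    have hexch : ∀ s ∈ A, ∀ t ∈ A, s ≠ t → ∃ e ∈ P, ∃ e' ∈ P, ∑ r ∈ A, e r = fP P hP A ∧
        ∑ r ∈ A, e' r = fP P hP A ∧ e' s + 1 = e s ∧ e' t = e t + 1 ∧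
        ∀ r, r ≠ s → r ≠ t → e' r = e r := by
      intro s hs t ht hst
      obtain ⟨e, he, h3, e', he', h4, h5, h6⟩ := hX s hs t ht hst
      refine ⟨e, he, e', he', h3, ?_, h4, h5, h6⟩
      have h7 := hsum (fun _ => 1) A hs ht hst h4 h5 h6
      simp only [mul_one] at h7
      omega
    have hod : ∀ s ∈ A, ∀ t ∈ A, od c z s = od c z t := by
      intro s hs t ht
      by_cases hst : s = t
      · rw [hst]
      · obtain ⟨e, he, e', he', h3, h4, h5, h6, h7⟩ := hexch s hs t ht hst
        have h8 := hsum (od c z) Finset.univ (Finset.mem_univ s) (Finset.mem_univ t) hst h5 h6 h7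
        rw [(hTN e he h3).1, (hTN e' he' h4).1] at h8
        omega
    -- a member which contains `s`
    have hpos : ∀ s ∈ A, ∃ e ∈ P, ∑ r ∈ A, e r = fP P hP A ∧ 0 < e s := by
      intro s hs
      by_cases h3 : ∃ t ∈ A, s ≠ t
      · obtain ⟨t, ht, hst⟩ := h3
        obtain ⟨e, he, e', he', h4, -, h5, -, -⟩ := hexch s hs t ht hst
        exact ⟨e, he, h4, by omega⟩
      · push Not at h3
        obtain ⟨e, he, h4⟩ := exists_min hP A
        refine ⟨e, he, h4, ?_⟩
        by_contra h5
        have h6 : ∑ r ∈ A, e r = 0 := Finset.sum_eq_zero fun r hr => by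
          rw [← h3 r hr]
          omega
        omega
    have hodN : ∀ s ∈ A, od c z s ≤ N := by
      intro s hs
      obtain ⟨e, he, h3, h4⟩ := hpos s hs
      by_contra h5
      have h6 : s ∈ Ak (fun s => zerosF (c s)) Finset.univ z N := by
        rw [mem_Ak_od le_rfl]
        omega
      have h7 := (Finset.sum_eq_zero_iff.1 (hTN e he h3).2) s h6
      omega
    obtain ⟨s0, hs0⟩ := hA0
    set a := od c z s0 with ha
    have hodA : ∀ s ∈ A, od c z s = a := fun s hs => hod s hs s0 hs0
    have hNa : fP P hP A * a = N := by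
      obtain ⟨e, he, h3⟩ := exists_min hP A
      rw [← (hTN e he h3).1, ← h3, Finset.sum_mul]
      rw [← Finset.sum_subset (Finset.subset_univ A) fun s _ hs => by rw [hodn s hs, mul_zero]]
      exact Finset.sum_congr rfl fun s hs => by rw [hodA s hs]
    -- the leading coefficients
    have hlead : ∀ e (he : e ∈ P), ∑ s ∈ A, e s = fP P hP A → ∀ g : (s : S) → Fin (e s) → κ s,
        ∏ s, ∏ k, ∑ i, algebraMap K (AlgebraicClosure K) (c s (g s k) i) * jk z (od c z s) i =
          c₀ * ∏ s, ∏ k, ∑ i, algebraMap K (AlgebraicClosure K) (c s (g s k) i) *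
            (if s ∈ A then v else p) i := by
      intro e he hef g
      have h3 := h2 ⟨⟨e, he⟩, g⟩
      rw [if_pos hef] at h3
      have h4 := (coeffs (c := c) z e g).2
      rw [(hTN e he hef).1] at h4
      exact h4.symm.trans h3
    -- the ratios
    set Xs : S → AlgebraicClosure K := fun s =>
      ∑ i, algebraMap K (AlgebraicClosure K) (c s (j0 s) i) * jk z (od c z s) i with hXs
    set Ys : S → AlgebraicClosure K := fun s =>
      ∑ i, algebraMap K (AlgebraicClosure K) (c s (j0 s) i) * (if s ∈ A then v else p) i with hYs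
    have hYs0 : ∀ s, Ys s ≠ 0 := hj0
    have hten : ∀ s ∈ A, ∃ α : AlgebraicClosure K, α ≠ 0 ∧ ∀ j,
        ∑ i, algebraMap K (AlgebraicClosure K) (c s j i) * jk z (od c z s) i =
          α * ∑ i, algebraMap K (AlgebraicClosure K) (c s j i) * (if s ∈ A then v else p) i := by
      intro s hs
      obtain ⟨e, he, h3, h4⟩ := hpos s hs
      exact tensor e
        (fun s j => ∑ i, algebraMap K (AlgebraicClosure K) (c s j i) * jk z (od c z s) i)
        (fun s j => ∑ i, algebraMap K (AlgebraicClosure K) (c s j i) * (if s ∈ A then v else p) i)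
        (fun s _ => j0 s) c₀ hc₀ (hY e) (fun g => hlead e he h3 g) s ⟨0, h4⟩
    have hpow : ∀ e ∈ P, ∑ s ∈ A, e s = fP P hP A → ∏ s, (Xs s / Ys s) ^ e s = c₀ := by
      intro e he hef
      have h3 := hlead e he hef fun s _ => j0 s
      have h4 : ∏ s, Xs s ^ e s = c₀ * ∏ s, Ys s ^ e s := by
        simpa only [Finset.prod_const, Finset.card_univ, Fintype.card_fin] using h3
      simp only [div_pow]
      rw [Finset.prod_div_distrib, h4, mul_div_assoc, div_self, mul_one]
      exact Finset.prod_ne_zero_iff.2 fun s _ => pow_ne_zero _ (hYs0 s)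
    have hXY : ∀ s ∈ A, ∀ t ∈ A, Xs s / Ys s = Xs t / Ys t := by
      intro s hs t ht
      by_cases hst : s = t
      · rw [hst]
      · obtain ⟨e, he, e', he', h3, h4, h5, h6, h7⟩ := hexch s hs t ht hst
        have h8 := hpow e he h3
        have h9 := hpow e' he' h4
        have h10 : (∏ r, (Xs r / Ys r) ^ e' r) * (Xs s / Ys s) =
            (∏ r, (Xs r / Ys r) ^ e r) * (Xs t / Ys t) := by
          have e1 : ∏ r, (if r = s then Xs r / Ys r else 1) = Xs s / Ys s := by
            rw [Finset.prod_ite_eq' Finset.univ s, if_pos (Finset.mem_univ s)]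
          have e2 : ∏ r, (if r = t then Xs r / Ys r else 1) = Xs t / Ys t := by
            rw [Finset.prod_ite_eq' Finset.univ t, if_pos (Finset.mem_univ t)]
          rw [← e1, ← e2, ← Finset.prod_mul_distrib, ← Finset.prod_mul_distrib]
          refine Finset.prod_congr rfl fun r _ => ?_
          by_cases h11 : r = s
          · subst h11
            rw [if_neg hst, if_pos rfl, ← h5, pow_succ, mul_one]
          · by_cases h12 : r = t
            · subst h12
              rw [if_pos rfl, if_neg h11, h6, pow_succ, mul_one]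
            · rw [if_neg h12, if_neg h11, h7 r h11 h12]
        rw [h8, h9] at h10
        exact mul_left_cancel₀ hc₀ h10
    refine ⟨a, fun k hk => ?_, ?_, hNa⟩
    · rw [hmemG]
      intro s hs
      exact od_lt (by rw [hodA s hs]; exact hk)
    · obtain ⟨α, hα, hα'⟩ := hten s0 hs0
      have hα0 : Xs s0 / Ys s0 = α := by
        rw [div_eq_iff (hYs0 s0)]
        exact hα' (j0 s0)
      refine ⟨α, hα, ?_⟩
      rw [hmemG]
      intro s hs
      obtain ⟨β, hβ, hβ'⟩ := hten s hs
      have hβ0 : Xs s / Ys s = β := by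
        rw [div_eq_iff (hYs0 s)]
        exact hβ' (j0 s)
      have hαβ : β = α := by rw [← hα0, ← hβ0, hXY s hs s0 hs0]
      rw [mem_zerosF]
      intro j
      have h4 := hβ' j
      rw [if_pos hs, hodA s hs, hαβ] at h4
      simp only [Pi.sub_apply, Pi.smul_apply, smul_eq_mul, mul_sub, Finset.sum_sub_distrib]
      rw [h4, Finset.mul_sum, sub_eq_zero]
      refine Finset.sum_congr rfl fun i _ => ?_
      ring
  · rintro ⟨a, h1, ⟨μ, hμ, h2⟩, h3⟩
    rw [hmemG] at h2
    have ha : 0 < a := by
      by_contra h4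
      have h5 : a = 0 := by omega
      subst h5
      obtain ⟨s, hs⟩ := hA0
      have h6 := h2 s hs
      rw [h0] at h6
      have h7 := (zerosF (c s)).sub_mem (hp s hs) h6
      rw [sub_sub_cancel] at h7
      have h8 := (zerosF (c s)).smul_mem μ⁻¹ h7
      rw [inv_smul_smul₀ hμ] at h8
      exact hv s hs h8
    have hv' : ∀ s ∈ A, ∀ j, ∑ i, algebraMap K (AlgebraicClosure K) (c s j i) * jk z a i =
        μ * ∑ i, algebraMap K (AlgebraicClosure K) (c s j i) * v i := by
      intro s hs j
      have h4 := (mem_zerosF _ _).1 (h2 s hs) j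
      simp only [Pi.sub_apply, Pi.smul_apply, smul_eq_mul, mul_sub, Finset.sum_sub_distrib,
        sub_eq_zero] at h4
      rw [h4, Finset.mul_sum]
      exact Finset.sum_congr rfl fun i _ => by ring
    have hl := fun (e : S → ℕ) (g : (s : S) → Fin (e s) → κ s) =>
      lead_gens z c e (fun s => if s ∈ A then a else 0) (fun s k hk => by
        by_cases hs : s ∈ A
        · rw [if_pos hs] at hk
          exact (hmemG _).1 (h1 k hk) s hs
        · rw [if_neg hs] at hk
          exact absurd hk (Nat.not_lt_zero k)) g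
    have hT : ∀ e : S → ℕ, ∑ s, e s * (if s ∈ A then a else 0) = (∑ s ∈ A, e s) * a := by
      intro e
      rw [Finset.sum_mul, ← Finset.sum_subset (Finset.subset_univ A) fun s _ hs => by
        rw [if_neg hs, mul_zero]]
      exact Finset.sum_congr rfl fun s hs => by rw [if_pos hs]
    refine ⟨fun g k hk => ?_, μ ^ fP P hP A, pow_ne_zero _ hμ, fun g => ?_⟩
    · refine (hl g.1.1 g.2).1 k ?_
      rw [hT]
      refine lt_of_lt_of_le hk ?_
      rw [← h3]
      exact Nat.mul_le_mul_right _ (fP_le hP g.1.2 A)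
    · split_ifs with h4
      · have h5 := (hl g.1.1 g.2).2
        rw [hT, h4, h3] at h5
        rw [gensP, h5, ← h4]
        have h6 : ∀ s, ∏ k : Fin (g.1.1 s), ∑ i, algebraMap K (AlgebraicClosure K)
            (c s (g.2 s k) i) * jk z (if s ∈ A then a else 0) i =
            (if s ∈ A then μ ^ g.1.1 s else 1) * ∏ k : Fin (g.1.1 s),
              ∑ i, algebraMap K (AlgebraicClosure K) (c s (g.2 s k) i) *
                (if s ∈ A then v else p) i := by
          intro s
          by_cases hs : s ∈ A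
          · rw [if_pos hs, if_pos hs, if_pos hs, Finset.prod_congr rfl fun k _ => hv' s hs _,
              Finset.prod_mul_distrib, Finset.prod_const, Finset.card_univ, Fintype.card_fin]
          · rw [if_neg hs, if_neg hs, if_neg hs, one_mul, h0]
        rw [Finset.prod_congr rfl fun s _ => h6 s, Finset.prod_mul_distrib]
        congr 1
        rw [Finset.prod_ite, Finset.prod_const_one, mul_one, Finset.filter_mem_eq_inter,
          Finset.univ_inter, Finset.prod_pow_eq_pow_sum]
      · rw [mul_zero]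
        refine (hl g.1.1 g.2).1 N ?_
        rw [hT, ← h3]
        exact Nat.mul_lt_mul_of_pos_right (lt_of_le_of_ne (fP_le hP g.1.2 A) (Ne.symm h4)) ha

end Pool.Agent.D0H67.PM.Ord
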