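import Pool.Agent.D0H67.PM.Stm

/-! # The exponents `e ≤ m` with the sum `a` -/

set_option autoImplicit false
set_option linter.unusedSectionVars false
set_option linter.unusedVariables false

namespace Pool.Agent.D0H67.PM.Unif

variable {S : Type} [Fintype S] [DecidableEq S]

theorem mem_Uni {m : S → ℕ} {a : ℕ} {e : S → ℕ} :
    e ∈ Uni m a ↔ (∀ s, e s ≤ m s) ∧ ∑ s, e s = a := by
  classical
  simp only [Uni, Finset.mem_filter, Fintype.mem_piFinset, Finset.mem_range]
  exact and_congr_left fun _ => forall_congr' fun s => ⟨fun h => by omega, fun h => by omega⟩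

/-- intermediate values -/
theorem ivt (u : S → ℕ) (a : ℕ) (hu : a ≤ ∑ s, u s) : ∀ (k : ℕ) (l : S → ℕ), (∀ s, l s ≤ u s) →
    ∑ s, l s ≤ a → a - ∑ s, l s = k → ∃ e : S → ℕ, (∀ s, l s ≤ e s) ∧ (∀ s, e s ≤ u s) ∧
      ∑ s, e s = a := by
  intro k
  induction k with
  | zero =>
    intro l hl h1 h2
    exact ⟨l, fun _ => le_rfl, hl, by omega⟩
  | succ k ih =>
    intro l hl h1 h2
    have h3 : ∑ s, l s < ∑ s, u s := by omega
    obtain ⟨t, -, ht⟩ := Finset.exists_lt_of_sum_lt h3
    have h4 : ∑ s, Function.update l t (l t + 1) s = ∑ s, l s + 1 := by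
      rw [← Finset.add_sum_erase Finset.univ _ (Finset.mem_univ t), Function.update_self,
        ← Finset.add_sum_erase Finset.univ l (Finset.mem_univ t)]
      rw [Finset.sum_congr rfl fun s hs => Function.update_of_ne (Finset.ne_of_mem_erase hs) _ l]
      ring
    obtain ⟨e, he1, he2, he3⟩ := ih (Function.update l t (l t + 1)) (fun s => by
      by_cases hs : s = t
      · subst hs
        rw [Function.update_self]
        omega
      · rw [Function.update_of_ne hs]
        exact hl s) (by omega) (by omega)
    refine ⟨e, fun s => ?_, he2, he3⟩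
    have h5 := he1 s
    by_cases hs : s = t
    · subst hs
      rw [Function.update_self] at h5
      omega
    · rwa [Function.update_of_ne hs] at h5

theorem ivt' (l u : S → ℕ) (a : ℕ) (h : ∀ s, l s ≤ u s) (hl : ∑ s, l s ≤ a)
    (hu : a ≤ ∑ s, u s) : ∃ e : S → ℕ, (∀ s, l s ≤ e s) ∧ (∀ s, e s ≤ u s) ∧ ∑ s, e s = a :=
  ivt u a hu _ l h hl rfl

/-- the exchange -/
def ex (e : S → ℕ) (s t : S) : S → ℕ := fun r =>
  if r = s then e s - 1 else if r = t then e t + 1 else e r

theorem sum_ex (e : S → ℕ) {s t : S} (hst : s ≠ t) (hs : 0 < e s) (B : Finset S) :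
    ∑ r ∈ B, ex e s t r + (if s ∈ B then 1 else 0) = ∑ r ∈ B, e r + if t ∈ B then 1 else 0 := by
  have h1 : ∑ r ∈ B, (if r = s then 1 else 0) = if s ∈ B then 1 else 0 :=
    Finset.sum_ite_eq' B s fun _ => 1
  have h2 : ∑ r ∈ B, (if r = t then 1 else 0) = if t ∈ B then 1 else 0 :=
    Finset.sum_ite_eq' B t fun _ => 1
  rw [← h1, ← h2, ← Finset.sum_add_distrib, ← Finset.sum_add_distrib]
  refine Finset.sum_congr rfl fun r _ => ?_
  unfold ex
  by_cases h3 : r = s
  · subst h3
    rw [if_pos rfl, if_pos rfl, if_neg hst]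
    omega
  · rw [if_neg h3, if_neg h3]
    by_cases h4 : r = t
    · subst h4
      rw [if_pos rfl, if_pos rfl]
    · rw [if_neg h4, if_neg h4]

theorem ex_mem {m : S → ℕ} {a : ℕ} {e : S → ℕ} (he : e ∈ Uni m a) {s t : S} (hst : s ≠ t)
    (hs : 0 < e s) (ht : e t < m t) : ex e s t ∈ Uni m a := by
  rw [mem_Uni] at he ⊢
  refine ⟨fun r => ?_, ?_⟩
  · unfold ex
    have := he.1 r
    by_cases h3 : r = s
    · subst h3
      rw [if_pos rfl]
      omega
    · rw [if_neg h3]
      by_cases h4 : r = t
      · subst h4
        rw [if_pos rfl]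
        omega
      · rw [if_neg h4]
        exact this
  · have := sum_ex e hst hs Finset.univ
    rw [if_pos (Finset.mem_univ s), if_pos (Finset.mem_univ t), he.2] at this
    omega

theorem sum_split (e : S → ℕ) (A : Finset S) :
    ∑ s ∈ Finset.univ \ A, e s + ∑ s ∈ A, e s = ∑ s, e s :=
  Finset.sum_sdiff (Finset.subset_univ A)

theorem main : S_PUNIF := by
  intro S _ _ m a hm ha
  obtain ⟨e0, -, he0, he0'⟩ := ivt' (fun _ => 0) m a (fun _ => Nat.zero_le _)
    (by simp) ha.le
  have hP : (Uni m a).Nonempty := ⟨e0, mem_Uni.2 ⟨he0, he0'⟩⟩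
  -- the minimum
  have hf : ∀ A : Finset S, fP (Uni m a) hP A = a - ∑ s ∈ Finset.univ \ A, m s := by
    intro A
    refine le_antisymm ?_ ?_
    · by_cases h : ∑ s ∈ Finset.univ \ A, m s ≤ a
      · obtain ⟨e, h1, h2, h3⟩ := ivt' (fun s => if s ∈ A then 0 else m s) m a (fun s => by
          by_cases hs : s ∈ A
          · simp only [if_pos hs]
            exact Nat.zero_le _
          · simp only [if_neg hs]
            exact le_rfl) (by
          have h4 : ∑ s, (if s ∈ A then 0 else m s) = ∑ s ∈ Finset.univ \ A, m s := by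
            rw [← sum_split _ A, Finset.sum_congr rfl fun s hs =>
              if_neg (Finset.mem_sdiff.1 hs).2, Finset.sum_eq_zero fun s hs => if_pos hs, add_zero]
          rw [h4]
          exact h) ha.le
        have h4 : ∑ s ∈ Finset.univ \ A, e s = ∑ s ∈ Finset.univ \ A, m s := by
          refine Finset.sum_congr rfl fun s hs => le_antisymm (h2 s) ?_
          have := h1 s
          simpa only [if_neg (Finset.mem_sdiff.1 hs).2] using this
        have h5 := sum_split e A
        refine (Finset.inf'_le (fun e => ∑ s ∈ A, e s) (mem_Uni.2 ⟨h2, h3⟩)).trans ?_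
        change ∑ s ∈ A, e s ≤ _
        omega
      · obtain ⟨e, h1, h2, h3⟩ := ivt' (fun _ => 0) (fun s => if s ∈ A then 0 else m s) a
          (fun s => Nat.zero_le _) (by simp) (by
          have h4 : ∑ s, (if s ∈ A then 0 else m s) = ∑ s ∈ Finset.univ \ A, m s := by
            rw [← sum_split _ A, Finset.sum_congr rfl fun s hs =>
              if_neg (Finset.mem_sdiff.1 hs).2, Finset.sum_eq_zero fun s hs => if_pos hs, add_zero]
          rw [h4]
          omega)
        have h4 : ∑ s ∈ A, e s = 0 := Finset.sum_eq_zero fun s hs => by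
          have := h2 s
          simp only [if_pos hs] at this
          omega
        have h5 : e ∈ Uni m a := mem_Uni.2 ⟨fun s => (h2 s).trans (by
          by_cases hs : s ∈ A
          · simp only [if_pos hs]
            exact Nat.zero_le _
          · simp only [if_neg hs]
            exact le_rfl), h3⟩
        refine (Finset.inf'_le (fun e => ∑ s ∈ A, e s) h5).trans ?_
        change ∑ s ∈ A, e s ≤ _
        omega
    · refine Finset.le_inf' _ _ fun e he => ?_
      rw [mem_Uni] at he
      have h1 := sum_split e A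
      have h2 : ∑ s ∈ Finset.univ \ A, e s ≤ ∑ s ∈ Finset.univ \ A, m s :=
        Finset.sum_le_sum fun s _ => he.1 s
      omega
  refine ⟨hP, ?_, hf, ?_⟩
  · -- greedy
    intro A hA
    obtain ⟨K, hK⟩ := Nat.sInf_mem (Set.range_nonempty fun k => (A k).card)
    have hK' : ∀ k, K ≤ k → A k = A K := by
      intro k hk
      refine Finset.eq_of_subset_of_card_le (hA hk) ?_
      have h1 : sInf (Set.range fun k => (A k).card) ≤ (A k).card :=
        Nat.sInf_le (Set.mem_range_self (f := fun k => (A k).card) k)
      rw [← hK] at h1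
      exact h1
    obtain ⟨e, he, hmin⟩ := Finset.exists_min_image (Uni m a)
      (fun e => ∑ k ∈ Finset.range (K + 1), ∑ s ∈ A k, e s) hP
    have key : ∀ j ≤ K, ∑ s ∈ A j, e s = fP (Uni m a) hP (A j) := by
      intro j hj
      refine le_antisymm ?_ (Finset.inf'_le _ he)
      by_contra hlt
      push Not at hlt
      rw [hf] at hlt
      have he' := mem_Uni.1 he
      have h1 := sum_split e (A j)
      have h2 : 0 < ∑ s ∈ A j, e s := by omega
      obtain ⟨s, hs, hs'⟩ := Finset.exists_lt_of_sum_lt (f := fun _ => 0) (g := e)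
        (s := A j) (by simpa using h2)
      have h3 : ∑ s ∈ Finset.univ \ A j, e s < ∑ s ∈ Finset.univ \ A j, m s := by omega
      obtain ⟨t, ht, ht'⟩ := Finset.exists_lt_of_sum_lt h3
      have htj : t ∉ A j := (Finset.mem_sdiff.1 ht).2
      have hst : s ≠ t := fun h => htj (h ▸ hs)
      have h4 := hmin _ (ex_mem he hst hs' ht')
      have h5 : ∑ k ∈ Finset.range (K + 1), ∑ r ∈ A k, ex e s t r <
          ∑ k ∈ Finset.range (K + 1), ∑ r ∈ A k, e r := by
        refine Finset.sum_lt_sum (fun k _ => ?_) ⟨j, Finset.mem_range.2 (by omega), ?_⟩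
        · have h6 := sum_ex e hst hs' (A k)
          rcases le_total k j with h7 | h7
          · rw [if_pos (hA h7 hs)] at h6
            split_ifs at h6 <;> omega
          · rw [if_neg fun h => htj (hA h7 h)] at h6
            split_ifs at h6 <;> omega
        · have h6 := sum_ex e hst hs' (A j)
          rw [if_pos hs, if_neg htj] at h6
          omega
      exact absurd h4 (not_le.2 h5)
    refine ⟨e, he, fun k => ?_⟩
    rcases le_total k K with h | h
    · exact key k h
    · rw [hK' k h]
      exact key K le_rfl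
  · -- exchange
    intro A hA s hs t ht hst
    rw [hf] at hA
    have hms := hm s
    have hmt := hm t
    have hl : ∑ r, (if r ∈ A then (if r = s then 1 else 0) else m r) =
        ∑ r ∈ Finset.univ \ A, m r + 1 := by
      rw [← sum_split _ A]
      congr 1
      · exact Finset.sum_congr rfl fun r hr => if_neg (Finset.mem_sdiff.1 hr).2
      · rw [Finset.sum_congr rfl fun r hr => if_pos hr, Finset.sum_ite_eq' A s, if_pos hs]
    have hu : ∑ r, (if r = t then m t - 1 else m r) + 1 = ∑ r, m r := by
      have h5 : ∑ x ∈ Finset.univ.erase t, (if x = t then m t - 1 else m x) =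
          ∑ x ∈ Finset.univ.erase t, m x :=
        Finset.sum_congr rfl fun r hr => if_neg (Finset.ne_of_mem_erase hr)
      rw [← Finset.add_sum_erase Finset.univ _ (Finset.mem_univ t), if_pos rfl,
        ← Finset.add_sum_erase Finset.univ m (Finset.mem_univ t), h5]
      omega
    obtain ⟨e, h1, h2, h3⟩ := ivt' (fun r => if r ∈ A then (if r = s then 1 else 0) else m r)
      (fun r => if r = t then m t - 1 else m r) a (fun r => by
        by_cases hr : r ∈ A
        · simp only [if_pos hr]
          by_cases hrs : r = s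
          · rw [if_pos hrs, if_neg fun h : r = t => hst (hrs.symm.trans h)]
            exact hm r
          · rw [if_neg hrs]
            exact Nat.zero_le _
        · simp only [if_neg hr]
          have hrt : r ≠ t := fun h => hr (h ▸ ht)
          rw [if_neg hrt]) (by rw [hl]; omega) (by omega)
    have he : e ∈ Uni m a := by
      refine mem_Uni.2 ⟨fun r => ?_, h3⟩
      have h9 : e r ≤ if r = t then m t - 1 else m r := h2 r
      split_ifs at h9 with hrt
      · rw [hrt] at h9 ⊢
        omega
      · exact h9
    have hes : 0 < e s := by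
      have h9 : (if s ∈ A then (if s = s then 1 else 0) else m s) ≤ e s := h1 s
      rw [if_pos hs, if_pos rfl] at h9
      omega
    have het : e t < m t := by
      have h9 : e t ≤ if t = t then m t - 1 else m t := h2 t
      rw [if_pos rfl] at h9
      omega
    refine ⟨e, he, ?_, ex e s t, ex_mem he hst hes het, ?_, ?_, fun r hrs hrt => ?_⟩
    · rw [hf]
      have h4 : ∑ r ∈ Finset.univ \ A, e r = ∑ r ∈ Finset.univ \ A, m r := by
        refine Finset.sum_congr rfl fun r hr => le_antisymm ((mem_Uni.1 he).1 r) ?_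
        have h9 : (if r ∈ A then (if r = s then 1 else 0) else m r) ≤ e r := h1 r
        rwa [if_neg (Finset.mem_sdiff.1 hr).2] at h9
      have h5 := sum_split e A
      rw [h4, h3] at h5
      omega
    · unfold ex
      rw [if_pos rfl]
      omega
    · unfold ex
      rw [if_neg (Ne.symm hst), if_pos rfl]
    · unfold ex
      rw [if_neg hrs, if_neg hrt]

end Pool.Agent.D0H67.PM.Unif
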