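import Pool.Agent.D0H67.PM.Rat
import Pool.Agent.D0H67.PM.Ord
import Pool.Agent.D0H67.PM.Sing
import Pool.Agent.D0H67.PM.Unif
import Pool.Agent.D0H9.SUB.Pt

/-! # The final assembly -/

set_option autoImplicit false
set_option linter.unusedSectionVars false
set_option linter.unusedVariables false

namespace Pool.Agent.D0H67.PM.Fin

open MvPolynomial Pool.Agent.W428.MOT Pool.Agent.TH192.MT Pool.Agent.TH192.DT
  Pool.Agent.D0H67.SUB

theorem fP_empty {S : Type} [Fintype S] [DecidableEq S] (P : Finset (S → ℕ)) (hP : P.Nonempty) : fP P hP ∅ = 0 := by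
  obtain ⟨e, -, he⟩ := Ord.exists_min hP (∅ : Finset S)
  rw [Finset.sum_empty] at he
  exact he.symm

theorem fP_mono {S : Type} [Fintype S] [DecidableEq S] (P : Finset (S → ℕ)) (hP : P.Nonempty) (A B : Finset S)
    (h : A ⊆ B) : fP P hP A ≤ fP P hP B := by
  obtain ⟨e, he, he'⟩ := Ord.exists_min hP B
  rw [← he']
  exact (Ord.fP_le hP he A).trans (Finset.sum_le_sum_of_subset h)

variable {σ S : Type} [Fintype σ] [Fintype S] [DecidableEq S] {κ : S → Type}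
  (c : (s : S) → κ s → σ → ℂ) (P : Finset (S → ℕ)) (hP : P.Nonempty)

/-- (1) rationality -/
theorem rat (hG : Greedy P hP) :
    zetaJ (gensP P c) ∈ ratRing ℂ {q : ℤ × ℤ | ∃ A : Finset S,
      (∀ s, (A.inf fun s => zeros (c s)) ≤ zeros (c s) → s ∈ A) ∧ 0 < fP P hP A ∧
      q = (-((Fintype.card σ - Module.finrank ℂ (A.inf fun s => zeros (c s) : Submodule _ _)
        : ℕ) : ℤ), (fP P hP A : ℤ))} := by
  obtain ⟨Φ, h1, h2, h3⟩ := Pool.Agent.D0H9.SUB.trans (K := ℂ) (σ := σ)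
  obtain ⟨M, hL, hM⟩ := exists_meas ℂ
  set L : S → Submodule (AlgebraicClosure ℂ) (Pt ℂ σ) := fun s => zerosF (c s) with hLdef
  have h4 : ∀ B : Finset S, B.inf L = Φ (B.inf fun s => zeros (c s)) := by
    intro B
    rw [map_finset_inf Φ B]
    exact Finset.inf_congr rfl fun s _ => (h3 (c s)).symm
  have h5 := Rat.main L (fP P hP) (fP_empty P hP) (fP_mono P hP) M (Lu ℂ) hL Finset.univ
    fun s _ => Finset.mem_univ s
  have h6 : {q : ℤ × ℤ | ∃ B : Finset S, (∀ s, B.inf L ≤ L s → s ∈ B) ∧ 0 < fP P hP B ∧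
        q = (-((Fintype.card σ - Module.finrank (AlgebraicClosure ℂ) (B.inf L : Submodule _ _)
          : ℕ) : ℤ), (fP P hP B : ℤ))} = {q : ℤ × ℤ | ∃ A : Finset S,
      (∀ s, (A.inf fun s => zeros (c s)) ≤ zeros (c s) → s ∈ A) ∧ 0 < fP P hP A ∧
      q = (-((Fintype.card σ - Module.finrank ℂ (A.inf fun s => zeros (c s) : Submodule _ _)
        : ℕ) : ℤ), (fP P hP A : ℤ))} := by
    ext q
    refine exists_congr fun B => ?_
    have h7 : ∀ s, B.inf L ≤ L s ↔ (B.inf fun s => zeros (c s)) ≤ zeros (c s) := by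
      intro s
      rw [h4, hLdef]
      change Φ _ ≤ zerosF (c s) ↔ _
      rw [← h3 (c s), OrderIso.le_iff_le]
    have h8 : Module.finrank (AlgebraicClosure ℂ) (B.inf L : Submodule _ _) =
        Module.finrank ℂ (B.inf fun s => zeros (c s) : Submodule _ _) := by
      rw [h4, h1]
    simp only [h7, h8]
  rw [h6] at h5
  refine Subalgebra.mul_mem _ (rat_C (Lu ℂ) _) (drop_mem ?_)
  have h9 : (PowerSeries.mk fun N => algebraMap (K0 ℂ) (MK ℂ) (cls (σ × _root_.Fin (N + 1))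
      (JetF (gensP P c) {0} N)) *
      (((Lu ℂ) ^ (-((Fintype.card σ * N : ℕ) : ℤ)) : (MK ℂ)ˣ) : MK ℂ)) =
      zf M (((Lu ℂ)⁻¹ : (MK ℂ)ˣ) : MK ℂ) L (fP P hP) Finset.univ := by
    unfold zf
    congr 1
    funext N
    rw [hM, inv_pow_eq, Ord.ord1 c P hP hG N]
  rw [h9]
  exact h5

/-- (2) the monodromy zeta functions -/
theorem mon (hc : ∀ s, zeros (c s) ≠ ⊤) (A : Finset S)
    (hA : ∀ s, (A.inf fun s => zeros (c s)) ≤ zeros (c s) → s ∈ A) (hf : 0 < fP P hP A)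
    (hX : ExchOn P hP A) (ε : ℝ) (hε : 0 < ε) :
    ∃ p ∈ (A.inf fun s => zeros (c s) : Submodule ℂ (σ → ℂ)), ‖p‖ < ε ∧
      ∃ y : GI P κ → ℂ, MonZeta (gensP P c) p y (Finsupp.single (fP P hP A) 1) := by
  obtain ⟨Φ, h1, h2, h3⟩ := Pool.Agent.D0H9.SUB.trans (K := ℂ) (σ := σ)
  obtain ⟨M, hL, hM⟩ := exists_meas ℂ
  set L : S → Submodule ℂ (σ → ℂ) := fun s => zeros (c s) with hLdef
  obtain ⟨p, hpG, hpε, hp⟩ := Pool.Agent.D0H9.SUB.pt (A.inf L) (fun s : {s // s ∉ A} => L s)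
    (fun s h => s.2 (hA s h)) ε hε
  obtain ⟨v, -, -, hvL⟩ := Pool.Agent.D0H9.SUB.pt (⊤ : Submodule ℂ (σ → ℂ)) (fun s : S => L s)
    (fun s h => hc s (top_le_iff.1 h)) 1 one_pos
  set pF : Pt ℂ σ := fun i => algebraMap ℂ (AlgebraicClosure ℂ) (p i) with hpF
  set vF : Pt ℂ σ := fun i => algebraMap ℂ (AlgebraicClosure ℂ) (v i) with hvF
  have h4 : ∀ s, Φ (L s) = zerosF (c s) := fun s => h3 (c s)
  have hvF' : ∀ s, vF ∉ zerosF (c s) := fun s => by
    rw [← h4, ← h2]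
    exact hvL s
  have hpA : ∀ s ∈ A, p ∈ L s := fun s hs => (Finset.inf_le (f := L) hs) hpG
  have hpF1 : ∀ s ∈ A, pF ∈ zerosF (c s) := fun s hs => by
    rw [← h4, ← h2]
    exact hpA s hs
  have hpF2 : ∀ s, s ∉ A → pF ∉ zerosF (c s) := fun s hs => by
    rw [← h4, ← h2]
    exact hp ⟨s, hs⟩
  have hA0 : A.Nonempty := by
    by_contra h
    rw [Finset.not_nonempty_iff_eq_empty] at h
    rw [h, fP_empty] at hf
    omega
  obtain ⟨s0, hs0⟩ := hA0
  set G : Submodule (AlgebraicClosure ℂ) (Pt ℂ σ) := A.inf fun s => zerosF (c s) with hG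
  have hpG' : pF ∈ G := by
    rw [hG, Submodule.mem_finsetInf]
    exact hpF1
  have hvG : vF ∉ G := fun h => hvF' s0 ((Finset.inf_le hs0 : G ≤ _) h)
  have hLw : M.L * (((Lu ℂ)⁻¹ : (MK ℂ)ˣ) : MK ℂ) = 1 := by rw [hL, Units.mul_inv]
  -- the vector of the leading coefficients
  set y : GI P κ → ℂ := fun g => if ∑ s ∈ A, g.1.1 s = fP P hP A then ∏ s, ∏ k, ∑ i,
    c s (g.2 s k) i * (if s ∈ A then v i else p i) else 0 with hy
  have hyF : (fun g => algebraMap ℂ (AlgebraicClosure ℂ) (y g)) = fun g : GI P κ =>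
      if ∑ s ∈ A, g.1.1 s = fP P hP A then ∏ s, ∏ k, ∑ i,
      algebraMap ℂ (AlgebraicClosure ℂ) (c s (g.2 s k) i) * (if s ∈ A then vF i else pF i)
        else 0 := by
    funext g
    rw [hy]
    by_cases h : ∑ s ∈ A, g.1.1 s = fP P hP A
    · simp only [if_pos h, map_prod, map_sum, map_mul]
      refine Finset.prod_congr rfl fun s _ => Finset.prod_congr rfl fun k _ =>
        Finset.sum_congr rfl fun i _ => ?_
      congr 1
      split_ifs <;> rfl
    · simp only [if_neg h, map_zero]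
  have hJ : ∀ N, JetE (gensP P c) pF (fun g => algebraMap ℂ (AlgebraicClosure ℂ) (y g)) N =
      {z : Pt ℂ (σ × _root_.Fin (N + 1)) | jk z 0 = pF ∧ ∃ a : ℕ,
        (∀ k < a, jk z k ∈ G) ∧ jk z a ∈ conv G vF ∧ fP P hP A * a = N} := by
    intro N
    rw [hyF]
    exact Ord.ord2 c P hP A hX hf pF vF (fun s _ => hvF' s) hpF1 hpF2 N
  refine ⟨p, hpG, hpε, y, ?_, ?_, ?_, ?_⟩
  · -- `y ≠ 0`
    intro h0
    have h6 : ∀ s, ∃ j : κ s, ∑ i, c s j i * (if s ∈ A then v i else p i) ≠ 0 := by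
      intro s
      by_contra h7
      push Not at h7
      by_cases hs : s ∈ A
      · exact hvL s fun j => by
          have := h7 j
          simpa only [if_pos hs] using this
      · exact hp ⟨s, hs⟩ fun j => by
          have := h7 j
          simpa only [if_neg hs] using this
    choose j hj using h6
    obtain ⟨e, he, he'⟩ := Ord.exists_min hP A
    have h7 := congrFun h0 ⟨⟨e, he⟩, fun s _ => j s⟩
    rw [hy] at h7
    simp only [if_pos he'] at h7
    exact (Finset.prod_ne_zero_iff.2 fun s _ => Finset.prod_ne_zero_iff.2 fun k _ => hj s) h7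
  · -- there are jets
    refine ⟨fP P hP A, hf, ?_⟩
    rw [hJ]
    have hz : jk (fun q : σ × _root_.Fin (fP P hP A + 1) => if (q.2 : ℕ) = 0 then pF q.1 else
        if (q.2 : ℕ) = 1 then vF q.1 else 0) 0 = pF := by
      rw [Lev.jk_zero]
      funext i
      simp
    refine ⟨fun q => if (q.2 : ℕ) = 0 then pF q.1 else if (q.2 : ℕ) = 1 then vF q.1 else 0, hz,
      1, fun k hk => ?_, ?_, Nat.mul_one _⟩
    · have hk0 : k = 0 := Nat.lt_one_iff.1 hk
      subst hk0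
      rw [hz]
      exact hpG'
    · refine ⟨1, one_ne_zero, ?_⟩
      rw [one_smul]
      have h6 : jk (fun q : σ × _root_.Fin (fP P hP A + 1) => if (q.2 : ℕ) = 0 then pF q.1 else
        if (q.2 : ℕ) = 1 then vF q.1 else 0) 1 = vF := by
        funext i
        rw [Lev.jk_lt _ (by omega)]
        simp
      rw [h6, sub_self]
      exact G.zero_mem
  · rw [Finsupp.single_eq_of_ne hf.ne]
  · intro N hN0
    obtain ⟨Q, k, hQ1, hQ⟩ := Sing.main M _ hLw G pF vF hpG' hvG _ hf N hN0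
    rw [hJ]
    refine ⟨Q, k, ?_, ?_⟩
    · rw [hQ1, Finsupp.support_single_ne_zero _ one_ne_zero, Finset.filter_singleton]
      split_ifs
      · rw [Finset.sum_singleton, Finsupp.single_eq_same]
      · rw [Finset.sum_empty]
    · rw [← hM, ← hL]
      exact hQ

open Classical in
/-- (3) Q1 -/
theorem q1 (hG : Greedy P hP) (hc : ∀ s, zeros (c s) ≠ ⊤)
    (hX : ∀ A : Finset S, (∀ s, (A.inf fun s => zeros (c s)) ≤ zeros (c s) → s ∈ A) →
      0 < fP P hP A → ExchOn P hP A) (s₀ : ℚ) :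
    zetaJ (gensP P c) ∈ ratRing ℂ {q : ℤ × ℤ | 0 < q.2 ∧ (q.1 : ℚ) / q.2 ≠ s₀} ∨
      ∀ ε : ℝ, 0 < ε → ∃ p : σ → ℂ, ‖p‖ < ε ∧
        ∃ (y : GI P κ → ℂ) (b : ℕ →₀ ℤ), MonZeta (gensP P c) p y b ∧
          ∑ M ∈ b.support.filter (fun M : ℕ => ∃ k : ℤ, s₀ * (M : ℚ) = k), b M ≠ 0 := by
  by_cases h : ∃ A : Finset S, (∀ s, (A.inf fun s => zeros (c s)) ≤ zeros (c s) → s ∈ A) ∧
      0 < fP P hP A ∧
      ((-((Fintype.card σ - Module.finrank ℂ (A.inf fun s => zeros (c s) : Submodule _ _)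
        : ℕ) : ℤ) : ℤ) : ℚ) / ((fP P hP A : ℕ) : ℤ) = s₀
  · right
    obtain ⟨A, hA, hf, h1⟩ := h
    intro ε hε
    obtain ⟨p, -, hp, y, hZ⟩ := mon c P hP hc A hA hf (hX A hA hf) ε hε
    refine ⟨p, hp, y, _, hZ, ?_⟩
    rw [Finsupp.support_single_ne_zero _ one_ne_zero, Finset.filter_singleton, if_pos,
      Finset.sum_singleton, Finsupp.single_eq_same]
    · exact one_ne_zero
    · refine ⟨-((Fintype.card σ - Module.finrank ℂ (A.inf fun s => zeros (c s) : Submodule _ _)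
        : ℕ) : ℤ), ?_⟩
      rw [← h1, Int.cast_natCast (fP P hP A), div_mul_cancel₀]
      exact_mod_cast hf.ne'
  · left
    refine rat_mono (Lu ℂ) ?_ (rat c P hP hG)
    rintro q ⟨A, hA, hf, rfl⟩
    exact ⟨Int.natCast_pos.2 hf, fun h1 => h ⟨A, hA, hf, h1⟩⟩

end Pool.Agent.D0H67.PM.Fin
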