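import Pool.Agent.D0H67.SUB.Stm

/-! # Polymatroidal sums of products of ideals of linear subspaces: definitions and statements

`P` is a finite set of exponents `e : S → ℕ`, and the ideal is `∑_{e ∈ P} ∏_s I(L s) ^ e s`. -/

set_option autoImplicit false
set_option linter.unusedSectionVars false
set_option linter.unusedVariables false

namespace Pool.Agent.D0H67.PM

open MvPolynomial Pool.Agent.W428.MOT Pool.Agent.TH192.MT Pool.Agent.TH192.DT
  Pool.Agent.D0H67.SUB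

section defs

variable {K : Type} [Field K] {σ S : Type} [Fintype σ] [DecidableEq S]

open Classical in
/-- The `s ∈ A` for which the jet lies in `L s` up to the order `k`. -/
noncomputable def Ak (L : S → Submodule (AlgebraicClosure K) (Pt K σ)) (A : Finset S) {N : ℕ}
    (z : Pt K (σ × Fin (N + 1))) (k : ℕ) : Finset S := A.filter fun s => ∀ j ≤ k, jk z j ∈ L s

/-- The `N`-jets with `z_0 ∈ V` and `∑_k f (A_k) = m`. -/
def Jf (L : S → Submodule (AlgebraicClosure K) (Pt K σ)) (f : Finset S → ℕ) (A : Finset S)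
    (V : Set (Pt K σ)) (m N : ℕ) : Set (Pt K (σ × Fin (N + 1))) :=
  {z | jk z 0 ∈ V ∧ f (Ak L A z N) = 0 ∧ ∑ k ∈ Finset.range (N + 1), f (Ak L A z k) = m}

/-- The points of `L s`, `s ∈ B`, outside the `L s`, `s ∈ A \ B`. -/
def VC (L : S → Submodule (AlgebraicClosure K) (Pt K σ)) (A B : Finset S) : Set (Pt K σ) :=
  {u | (∀ s ∈ B, u ∈ L s) ∧ ∀ s ∈ A \ B, u ∉ L s}

/-- The series `∑ χ(Jf A {0} N N) v ^ (n N) T ^ N`. -/
noncomputable def zf {R : Type} [CommRing R] (M : Meas K R) (v : R)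
    (L : S → Submodule (AlgebraicClosure K) (Pt K σ)) (f : Finset S → ℕ) (A : Finset S) :
    PowerSeries R :=
  PowerSeries.mk fun N => M.χ (σ × Fin (N + 1)) (Jf L f A {0} N N) * v ^ (Fintype.card σ * N)

end defs

/-- The generators: a member `e` of `P`, and `e s` of the linear forms of index `s`, for each `s`. -/
abbrev GI {S : Type} (P : Finset (S → ℕ)) (κ : S → Type) : Type :=
  Σ e : {e // e ∈ P}, (s : S) → Fin (e.1 s) → κ s

/-- The generators of `∑_{e ∈ P} ∏_s I(L s) ^ e s`. -/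
noncomputable def gensP {K : Type} [Field K] {σ S : Type} [Fintype σ] [Fintype S]
    {κ : S → Type} (P : Finset (S → ℕ)) (c : (s : S) → κ s → σ → K) (g : GI P κ) :
    MvPolynomial σ K := gens c g.1.1 g.2

/-- The least value of `∑_{s ∈ A} e s`, `e ∈ P`. -/
noncomputable def fP {S : Type} (P : Finset (S → ℕ)) (hP : P.Nonempty) (A : Finset S) : ℕ :=
  P.inf' hP fun e => ∑ s ∈ A, e s

/-- For every chain of sets there is a member of `P` which is minimal on all of them. -/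
def Greedy {S : Type} (P : Finset (S → ℕ)) (hP : P.Nonempty) : Prop :=
  ∀ A : ℕ → Finset S, Antitone A → ∃ e ∈ P, ∀ k, ∑ s ∈ A k, e s = fP P hP (A k)

/-- For all `s ≠ t` in `A` there is a member `e` of `P`, which is minimal on `A`, such that also
`e - s + t` is a member of `P`. -/
def ExchOn {S : Type} (P : Finset (S → ℕ)) (hP : P.Nonempty) (A : Finset S) : Prop :=
  ∀ s ∈ A, ∀ t ∈ A, s ≠ t → ∃ e ∈ P, ∑ r ∈ A, e r = fP P hP A ∧
    ∃ e' ∈ P, e' s + 1 = e s ∧ e' t = e t + 1 ∧ ∀ r, r ≠ s → r ≠ t → e' r = e r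

/-- (PENG) -/
def S_PENG : Prop :=
  ∀ {K : Type} [Field K] {σ S : Type} [Fintype σ] [DecidableEq S]
    (L : S → Submodule (AlgebraicClosure K) (Pt K σ)) (f : Finset S → ℕ),
    (∀ s, Constr (L s : Set (Pt K σ))) → f ∅ = 0 → (∀ A B, A ⊆ B → f A ≤ f B) →
    ∀ {R : Type} [CommRing R] (M : Meas K R) (v : R), M.L * v = 1 →
      (∀ A, f A = 0 → zf M v L f A = 1) ∧ ∀ A : Finset S,
      zf M v L f A = PowerSeries.C (v ^ Fintype.card σ) * PowerSeries.X ^ f A *
        ∑ B ∈ A.powerset, PowerSeries.C (M.χ σ (VC L A B)) * zf M v L f B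

/-- (PRAT) -/
def S_PRAT : Prop :=
  ∀ {K : Type} [Field K] [IsAlgClosed K] {σ S : Type} [Fintype σ] [DecidableEq S]
    (L : S → Submodule (AlgebraicClosure K) (Pt K σ)) (f : Finset S → ℕ),
    f ∅ = 0 → (∀ A B, A ⊆ B → f A ≤ f B) →
    ∀ {R : Type} [CommRing R] (M : Meas K R) (u : Rˣ), M.L = (u : R) →
    ∀ A : Finset S, (∀ s, A.inf L ≤ L s → s ∈ A) →
      zf M ((u⁻¹ : Rˣ) : R) L f A ∈ ratU u {q : ℤ × ℤ | ∃ B : Finset S,
        (∀ s, B.inf L ≤ L s → s ∈ B) ∧ 0 < f B ∧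
        q = (-((Fintype.card σ - Module.finrank (AlgebraicClosure K) (B.inf L : Submodule _ _)
          : ℕ) : ℤ), (f B : ℤ))}

/-- (PORD1) the order of the ideal -/
def S_PORD1 : Prop :=
  ∀ {K : Type} [Field K] {σ S : Type} [Fintype σ] [Fintype S] [DecidableEq S] {κ : S → Type}
    (c : (s : S) → κ s → σ → K) (P : Finset (S → ℕ)) (hP : P.Nonempty), Greedy P hP → ∀ N : ℕ,
    JetF (gensP P c) {0} N = Jf (fun s => zerosF (c s)) (fP P hP) Finset.univ {0} N N

/-- (PORD2) the jets with given leading coefficients -/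
def S_PORD2 : Prop :=
  ∀ {K : Type} [Field K] {σ S : Type} [Fintype σ] [Fintype S] [DecidableEq S] {κ : S → Type}
    (c : (s : S) → κ s → σ → K) (P : Finset (S → ℕ)) (hP : P.Nonempty) (A : Finset S),
    ExchOn P hP A → 0 < fP P hP A → ∀ (p v : Pt K σ), (∀ s ∈ A, v ∉ zerosF (c s)) →
    (∀ s ∈ A, p ∈ zerosF (c s)) → (∀ s, s ∉ A → p ∉ zerosF (c s)) → ∀ N : ℕ,
    JetE (gensP P c) p (fun g => if ∑ s ∈ A, g.1.1 s = fP P hP A then ∏ s, ∏ k, ∑ i,
        algebraMap K (AlgebraicClosure K) (c s (g.2 s k) i) * (if s ∈ A then v i else p i)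
        else 0) N =
      {z : Pt K (σ × Fin (N + 1)) | jk z 0 = p ∧ ∃ a : ℕ,
        (∀ k < a, jk z k ∈ (A.inf fun s => zerosF (c s) : Submodule _ _)) ∧
          jk z a ∈ conv (A.inf fun s => zerosF (c s) : Submodule _ _) v ∧ fP P hP A * a = N}

/-- (PSING) the Euler characteristic -/
def S_PSING : Prop :=
  ∀ {K : Type} [Field K] [IsAlgClosed K] {σ : Type} [Fintype σ] {R : Type} [CommRing R]
    (M : Meas K R) (w : R), M.L * w = 1 → ∀ (G : Submodule (AlgebraicClosure K) (Pt K σ))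
    (p v : Pt K σ), p ∈ G → v ∉ G → ∀ m : ℕ, 0 < m → ∀ N : ℕ, 0 < N →
    ∃ (Q : Polynomial ℤ) (k : ℕ), Q.eval 1 = (if m ∣ N then 1 else 0) ∧
      M.χ _ {z : Pt K (σ × Fin (N + 1)) | jk z 0 = p ∧ ∃ a : ℕ, (∀ k < a, jk z k ∈ G) ∧
          jk z a ∈ conv G v ∧ m * a = N} * M.L ^ k =
        (M.L - 1) * Q.eval₂ (Int.castRingHom R) M.L

open Classical in
/-- The `e ≤ m` with the sum `a`. -/
noncomputable def Uni {S : Type} [Fintype S] (m : S → ℕ) (a : ℕ) : Finset (S → ℕ) :=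
  (Fintype.piFinset fun s => Finset.range (m s + 1)).filter fun e => ∑ s, e s = a

/-- (PUNIF) -/
def S_PUNIF : Prop :=
  ∀ {S : Type} [Fintype S] [DecidableEq S] (m : S → ℕ) (a : ℕ), (∀ s, 0 < m s) →
    a < ∑ s, m s → ∃ hP : (Uni m a).Nonempty, Greedy (Uni m a) hP ∧
      (∀ A : Finset S, fP (Uni m a) hP A = a - ∑ s ∈ Finset.univ \ A, m s) ∧
      ∀ A : Finset S, 0 < fP (Uni m a) hP A → ExchOn (Uni m a) hP A

end Pool.Agent.D0H67.PM
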